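import Mathlib

set_option autoImplicit false

open Filter Topology Set
open scoped RealInnerProductSpace

namespace Pool.Agent.R217.KM

variable {H L : Type*} [NormedAddCommGroup H] [InnerProductSpace ℝ H] [CompleteSpace H]
  [NormedAddCommGroup L] [InnerProductSpace ℝ L] [CompleteSpace L]

/-- The abstract setting: a compact map `ι : H → L` and a nonlinearity `G` on `H` with
gradient `g`. -/
structure Dat (ι : H →L[ℝ] L) (G : H → ℝ) (g : H → H) (p C0 C1 κ : ℝ) : Prop where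
  hp2 : 2 < p
  hp4 : p < 4
  hC0 : 0 ≤ C0
  hC1 : 0 ≤ C1
  G0 : ∀ u, 0 ≤ G u
  GC : ∀ u, G u ≤ C0 * ‖u‖ ^ p
  Gn : ∀ u, G (-u) = G u
  Gd : ∀ u h : H, ∀ t : ℝ, HasDerivAt (fun s : ℝ => G (u + s • h)) ⟪g (u + t • h), h⟫ t
  gu : ∀ u, ⟪g u, u⟫ = p * G u
  gL : ∀ u w, ‖g u - g w‖ ≤ C1 * (‖u‖ ^ (p - 2) + ‖w‖ ^ (p - 2)) * ‖u - w‖
  cpt : ∀ R : ℝ, TotallyBounded (ι '' Metric.closedBall 0 R)
  κ0 : 0 < κ
  W : ∀ f : Fin 5 → (H →ₗ[ℝ] ℝ), ∃ w : H, ‖ι w‖ = 1 ∧ ‖w‖ ≤ κ ∧ ∀ i, f i w = 0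

lemma grow {p : ℝ} (hp2 : 2 < p) (hp4 : p < 4) {α : ℝ} (hα : 0 < α) (β γ δ ε : ℝ) :
    ∃ R : ℝ, 1 ≤ R ∧ ∀ r, R ≤ r → β * r ^ p + γ * r ^ 2 + δ * r + ε ≤ α * r ^ 4 := by
  obtain ⟨S, hS⟩ : ∃ S, S = |β| + |γ| + |δ| + |ε| := ⟨_, rfl⟩
  have hS0 : 0 ≤ S := by rw [hS]; positivity
  refine ⟨max 1 ((S / α) ^ (1 / (4 - p))), le_max_left _ _, fun r hr => ?_⟩
  have h1 : 1 ≤ r := (le_max_left _ _).trans hr
  have h2 : (S / α) ^ (1 / (4 - p)) ≤ r := (le_max_right _ _).trans hr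
  have h3 : S / α ≤ r ^ (4 - p) := by
    have := Real.rpow_le_rpow (by positivity) h2 (show 0 ≤ 4 - p by linarith)
    rwa [← Real.rpow_mul (by positivity), one_div_mul_cancel (by linarith), Real.rpow_one] at this
  have h4 : r ^ (4:ℕ) = r ^ (4 - p) * r ^ p := by
    rw [← Real.rpow_add (by linarith), sub_add_cancel, ← Real.rpow_natCast]
    norm_num
  have h5 : r ^ 2 ≤ r ^ p := by
    rw [← Real.rpow_natCast r 2]
    exact Real.rpow_le_rpow_of_exponent_le h1 (by push_cast; linarith)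
  have h6 : r ≤ r ^ p := by
    simpa using Real.rpow_le_rpow_of_exponent_le h1 (show (1:ℝ) ≤ p by linarith)
  have h7 : 1 ≤ r ^ p := Real.one_le_rpow h1 (by linarith)
  have e1 : β * r ^ p ≤ |β| * r ^ p := mul_le_mul_of_nonneg_right (le_abs_self _) (by linarith)
  have e2 : γ * r ^ 2 ≤ |γ| * r ^ p :=
    (mul_le_mul_of_nonneg_right (le_abs_self _) (by positivity)).trans
      (mul_le_mul_of_nonneg_left h5 (abs_nonneg _))
  have e3 : δ * r ≤ |δ| * r ^ p :=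
    (mul_le_mul_of_nonneg_right (le_abs_self _) (by linarith)).trans
      (mul_le_mul_of_nonneg_left h6 (abs_nonneg _))
  have e4 : ε ≤ |ε| * r ^ p := (le_abs_self _).trans (le_mul_of_one_le_right (abs_nonneg _) h7)
  have e5 : S * r ^ p ≤ α * (r ^ (4 - p) * r ^ p) := by
    rw [← mul_assoc]
    apply mul_le_mul_of_nonneg_right _ (by linarith)
    rw [div_le_iff₀ hα] at h3
    linarith
  rw [h4]
  rw [hS] at e5
  nlinarith

/-- The functional. -/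
noncomputable def II (ι : H →L[ℝ] L) (G : H → ℝ) (a b lam : ℝ) (v : L) (u : H) : ℝ :=
  a / 2 * ‖u‖ ^ 2 + b / 4 * ‖u‖ ^ 4 - G u - lam / 2 * ‖ι u‖ ^ 2 + lam * ⟪ι u, v⟫

/-- Its gradient. -/
noncomputable def DI (ι : H →L[ℝ] L) (g : H → H) (a b lam : ℝ) (v : L) (u : H) : H :=
  (a + b * ‖u‖ ^ 2) • u - g u - lam • ContinuousLinearMap.adjoint ι (ι u) +
    lam • ContinuousLinearMap.adjoint ι v

section

variable {ι : H →L[ℝ] L} {G : H → ℝ} {g : H → H} {p C0 C1 κ a b lam : ℝ}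

lemma inner_DI (v : L) (u h : H) : ⟪DI ι g a b lam v u, h⟫ =
    (a + b * ‖u‖ ^ 2) * ⟪u, h⟫ - ⟪g u, h⟫ - lam * ⟪ι u, ι h⟫ + lam * ⟪v, ι h⟫ := by
  unfold DI
  rw [inner_add_left, inner_sub_left, inner_sub_left, real_inner_smul_left, real_inner_smul_left,
    real_inner_smul_left, ContinuousLinearMap.adjoint_inner_left,
    ContinuousLinearMap.adjoint_inner_left]

lemma hasDeriv_II (hD : Dat ι G g p C0 C1 κ) (v : L) (u h : H) (t : ℝ) :
    HasDerivAt (fun s : ℝ => II ι G a b lam v (u + s • h))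
      ⟪DI ι g a b lam v (u + t • h), h⟫ t := by
  have h1 : HasDerivAt (fun s : ℝ => u + s • h) h t := by
    simpa using ((hasDerivAt_id t).smul_const h).const_add u
  have h2 : HasDerivAt (fun s : ℝ => ‖u + s • h‖ ^ 2) (2 * ⟪u + t • h, h⟫) t := h1.norm_sq
  have h3 : HasDerivAt (fun s : ℝ => ι (u + s • h)) (ι h) t :=
    ι.hasFDerivAt.comp_hasDerivAt t h1
  have h4 : HasDerivAt (fun s : ℝ => ‖ι (u + s • h)‖ ^ 2) (2 * ⟪ι (u + t • h), ι h⟫) t :=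
    h3.norm_sq
  have h5 : HasDerivAt (fun s : ℝ => ⟪ι (u + s • h), v⟫) (⟪ι (u + t • h), (0:L)⟫ + ⟪ι h, v⟫) t :=
    h3.inner ℝ (hasDerivAt_const t v)
  have h6 := ((((h2.const_mul (a / 2)).add ((h2.pow 2).const_mul (b / 4))).sub (hD.Gd u h t)).sub
    (h4.const_mul (lam / 2))).add (h5.const_mul lam)
  have e : (fun s : ℝ => II ι G a b lam v (u + s • h)) = fun s : ℝ =>
      a / 2 * ‖u + s • h‖ ^ 2 + b / 4 * (‖u + s • h‖ ^ 2) ^ 2 - G (u + s • h) -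
        lam / 2 * ‖ι (u + s • h)‖ ^ 2 + lam * ⟪ι (u + s • h), v⟫ := by
    funext s
    unfold II
    ring
  rw [e]
  refine h6.congr_deriv ?_
  rw [inner_DI, inner_zero_right, real_inner_comm (ι h) v]
  push_cast
  ring

/-- Lipschitz constant of the gradient. -/
noncomputable def Lc (ι : H →L[ℝ] L) (p C1 a b lam R : ℝ) : ℝ :=
  a + 3 * b * R ^ 2 + 2 * C1 * R ^ (p - 2) + lam * (‖ContinuousLinearMap.adjoint ι‖ * ‖ι‖)

lemma Lc_nonneg (hC1 : 0 ≤ C1) (ha : 0 ≤ a) (hb : 0 ≤ b) (hl : 0 ≤ lam) {R : ℝ} (hR : 0 ≤ R) :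
    0 ≤ Lc ι p C1 a b lam R := by
  unfold Lc
  positivity

lemma DI_lip (hD : Dat ι G g p C0 C1 κ) (ha : 0 ≤ a) (hb : 0 ≤ b) (hl : 0 ≤ lam) (v : L)
    {R : ℝ} {u w : H} (hu : ‖u‖ ≤ R) (hw : ‖w‖ ≤ R) :
    ‖DI ι g a b lam v u - DI ι g a b lam v w‖ ≤ Lc ι p C1 a b lam R * ‖u - w‖ := by
  have hR : 0 ≤ R := (norm_nonneg _).trans hu
  have e : DI ι g a b lam v u - DI ι g a b lam v w =
      (a + b * ‖u‖ ^ 2) • (u - w) + (b * (‖u‖ ^ 2 - ‖w‖ ^ 2)) • w - (g u - g w) -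
        lam • ContinuousLinearMap.adjoint ι (ι (u - w)) := by
    unfold DI
    rw [map_sub, map_sub]
    module
  rw [e]
  have h1 : ‖(a + b * ‖u‖ ^ 2) • (u - w)‖ ≤ (a + b * R ^ 2) * ‖u - w‖ := by
    rw [norm_smul, Real.norm_eq_abs, abs_of_nonneg (by positivity)]
    gcongr
  have h0 : |‖u‖ ^ 2 - ‖w‖ ^ 2| ≤ 2 * R * ‖u - w‖ := by
    have e1 : ‖u‖ ^ 2 - ‖w‖ ^ 2 = (‖u‖ + ‖w‖) * (‖u‖ - ‖w‖) := by ring
    rw [e1, abs_mul, abs_of_nonneg (show 0 ≤ ‖u‖ + ‖w‖ by positivity)]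
    apply mul_le_mul (by linarith) (abs_norm_sub_norm_le u w) (abs_nonneg _) (by linarith)
  have h2 : ‖(b * (‖u‖ ^ 2 - ‖w‖ ^ 2)) • w‖ ≤ 2 * b * R ^ 2 * ‖u - w‖ := by
    rw [norm_smul, Real.norm_eq_abs, abs_mul, abs_of_nonneg hb]
    calc b * |‖u‖ ^ 2 - ‖w‖ ^ 2| * ‖w‖ ≤ b * (2 * R * ‖u - w‖) * R := by gcongr
      _ = _ := by ring
  have h3 : ‖g u - g w‖ ≤ 2 * C1 * R ^ (p - 2) * ‖u - w‖ := by
    refine (hD.gL u w).trans ?_
    have hp := hD.hp2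
    have k1 : ‖u‖ ^ (p - 2) ≤ R ^ (p - 2) := Real.rpow_le_rpow (norm_nonneg _) hu (by linarith)
    have k2 : ‖w‖ ^ (p - 2) ≤ R ^ (p - 2) := Real.rpow_le_rpow (norm_nonneg _) hw (by linarith)
    calc C1 * (‖u‖ ^ (p - 2) + ‖w‖ ^ (p - 2)) * ‖u - w‖
        ≤ C1 * (R ^ (p - 2) + R ^ (p - 2)) * ‖u - w‖ := by
          have := hD.hC1
          gcongr
      _ = _ := by ring
  have h4 : ‖lam • ContinuousLinearMap.adjoint ι (ι (u - w))‖ ≤
      lam * (‖ContinuousLinearMap.adjoint ι‖ * ‖ι‖) * ‖u - w‖ := by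
    rw [norm_smul, Real.norm_eq_abs, abs_of_nonneg hl]
    have k1 := (ContinuousLinearMap.adjoint ι).le_opNorm (ι (u - w))
    have k2 := ι.le_opNorm (u - w)
    calc lam * ‖ContinuousLinearMap.adjoint ι (ι (u - w))‖
        ≤ lam * (‖ContinuousLinearMap.adjoint ι‖ * (‖ι‖ * ‖u - w‖)) := by gcongr; exact k1.trans (by gcongr)
      _ = _ := by ring
  calc _ ≤ ‖(a + b * ‖u‖ ^ 2) • (u - w)‖ + ‖(b * (‖u‖ ^ 2 - ‖w‖ ^ 2)) • w‖ + ‖g u - g w‖ +
        ‖lam • ContinuousLinearMap.adjoint ι (ι (u - w))‖ :=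
        (norm_sub_le _ _).trans (add_le_add_left ((norm_sub_le _ _).trans
          (add_le_add_left (norm_add_le _ _) _)) _)
    _ ≤ _ := by
        unfold Lc
        linarith

lemma DI_continuous (hD : Dat ι G g p C0 C1 κ) (ha : 0 ≤ a) (hb : 0 ≤ b) (hl : 0 ≤ lam) (v : L) :
    Continuous (DI ι g a b lam v) := by
  rw [continuous_iff_continuousAt]
  intro u
  rw [ContinuousAt, tendsto_iff_norm_sub_tendsto_zero]
  have hR : 0 ≤ Lc ι p C1 a b lam (‖u‖ + 1) := Lc_nonneg hD.hC1 ha hb hl (by positivity)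
  have h1 : Tendsto (fun w => Lc ι p C1 a b lam (‖u‖ + 1) * ‖w - u‖) (𝓝 u) (𝓝 0) := by
    have : Tendsto (fun w => ‖w - u‖) (𝓝 u) (𝓝 0) := by
      have h2 : Continuous fun w : H => ‖w - u‖ := by fun_prop
      simpa using h2.tendsto u
    simpa using this.const_mul (Lc ι p C1 a b lam (‖u‖ + 1))
  refine squeeze_zero' (Eventually.of_forall fun w => norm_nonneg _) ?_ h1
  filter_upwards [Metric.ball_mem_nhds u one_pos] with w hw
  rw [Metric.mem_ball, dist_eq_norm] at hw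
  apply DI_lip hD ha hb hl v _ (by linarith)
  have := norm_add_le u (w - u)
  rw [add_sub_cancel] at this
  linarith

/-- The Taylor inequality. -/
lemma taylor (hD : Dat ι G g p C0 C1 κ) (ha : 0 ≤ a) (hb : 0 ≤ b) (hl : 0 ≤ lam) (v : L)
    {R : ℝ} {u w : H} (hu : ‖u‖ ≤ R) (hw : ‖w‖ ≤ R) :
    |II ι G a b lam v w - II ι G a b lam v u - ⟪DI ι g a b lam v u, w - u⟫| ≤
      Lc ι p C1 a b lam R * ‖w - u‖ ^ 2 := by
  have hR : 0 ≤ R := (norm_nonneg _).trans hu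
  have hLc : 0 ≤ Lc ι p C1 a b lam R := Lc_nonneg hD.hC1 ha hb hl hR
  have hd := fun t : ℝ => hasDeriv_II (a := a) (b := b) (lam := lam) hD v u (w - u) t
  obtain ⟨c, hc, hc'⟩ := exists_hasDerivAt_eq_slope (fun s : ℝ => II ι G a b lam v (u + s • (w - u)))
    (fun t => ⟪DI ι g a b lam v (u + t • (w - u)), w - u⟫) one_pos
    (fun t _ => (hd t).continuousAt.continuousWithinAt) (fun t _ => hd t)
  simp only [one_smul, zero_smul, add_zero, add_sub_cancel, sub_zero, div_one] at hc'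
  rw [← hc', ← inner_sub_left]
  refine (abs_real_inner_le_norm _ _).trans ?_
  have h1 : ‖u + c • (w - u)‖ ≤ R := by
    have e : u + c • (w - u) = (1 - c) • u + c • w := by module
    rw [e]
    calc ‖(1 - c) • u + c • w‖ ≤ (1 - c) * ‖u‖ + c * ‖w‖ := by
          refine (norm_add_le _ _).trans ?_
          rw [norm_smul, norm_smul, Real.norm_eq_abs, Real.norm_eq_abs,
            abs_of_nonneg (by linarith [hc.2]), abs_of_nonneg hc.1.le]
      _ ≤ (1 - c) * R + c * R := by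
          have := hc.1
          have := hc.2
          gcongr
      _ = R := by ring
  have h2 := DI_lip (a := a) (b := b) (lam := lam) hD ha hb hl v h1 hu
  rw [add_sub_cancel_left, norm_smul, Real.norm_eq_abs, abs_of_pos hc.1] at h2
  calc _ ≤ Lc ι p C1 a b lam R * (c * ‖w - u‖) * ‖w - u‖ := by gcongr
    _ ≤ Lc ι p C1 a b lam R * (1 * ‖w - u‖) * ‖w - u‖ := by
        gcongr
        exact hc.2.le
    _ = _ := by ring

lemma II_continuous (hD : Dat ι G g p C0 C1 κ) (ha : 0 ≤ a) (hb : 0 ≤ b) (hl : 0 ≤ lam) (v : L) :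
    Continuous (II ι G a b lam v) := by
  rw [continuous_iff_continuousAt]
  intro u
  rw [ContinuousAt, tendsto_iff_norm_sub_tendsto_zero]
  have h1 : Tendsto (fun w => Lc ι p C1 a b lam (‖u‖ + 1) * ‖w - u‖ ^ 2 +
      ‖DI ι g a b lam v u‖ * ‖w - u‖) (𝓝 u) (𝓝 0) := by
    have h2 : Continuous fun w : H => Lc ι p C1 a b lam (‖u‖ + 1) * ‖w - u‖ ^ 2 +
      ‖DI ι g a b lam v u‖ * ‖w - u‖ := by fun_prop
    simpa using h2.tendsto u
  refine squeeze_zero' (Eventually.of_forall fun w => norm_nonneg _) ?_ h1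
  filter_upwards [Metric.ball_mem_nhds u one_pos] with w hw
  rw [Metric.mem_ball, dist_eq_norm] at hw
  have hw2 : ‖w‖ ≤ ‖u‖ + 1 := by
    have := norm_add_le u (w - u)
    rw [add_sub_cancel] at this
    linarith
  have h3 := taylor (a := a) (b := b) (lam := lam) hD ha hb hl v
    (show ‖u‖ ≤ ‖u‖ + 1 by linarith) hw2
  have h4 := abs_real_inner_le_norm (DI ι g a b lam v u) (w - u)
  rw [Real.norm_eq_abs]
  have h5 := abs_add_le (II ι G a b lam v w - II ι G a b lam v u - ⟪DI ι g a b lam v u, w - u⟫)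
    ⟪DI ι g a b lam v u, w - u⟫
  rw [sub_add_cancel] at h5
  linarith

/-- One step of gradient descent. -/
lemma step (hD : Dat ι G g p C0 C1 κ) (ha : 0 ≤ a) (hb : 0 ≤ b) (hl : 0 ≤ lam) (v : L)
    (R : ℝ) : ∃ τ : ℝ, 0 < τ ∧ ∀ u : H, ‖u‖ ≤ R →
      II ι G a b lam v (u - τ • DI ι g a b lam v u) ≤
        II ι G a b lam v u - τ / 2 * ‖DI ι g a b lam v u‖ ^ 2 := by
  rcases lt_or_ge R 0 with hR | hR
  · exact ⟨1, one_pos, fun u hu => absurd ((norm_nonneg _).trans hu) (by linarith)⟩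
  obtain ⟨D, hDD⟩ : ∃ D, D = Lc ι p C1 a b lam R * R + ‖DI ι g a b lam v 0‖ := ⟨_, rfl⟩
  have hD0 : 0 ≤ D := by
    rw [hDD]
    have := Lc_nonneg (ι := ι) (p := p) hD.hC1 ha hb hl hR
    positivity
  have hbd : ∀ u : H, ‖u‖ ≤ R → ‖DI ι g a b lam v u‖ ≤ D := by
    intro u hu
    have h1 := DI_lip (a := a) (b := b) (lam := lam) hD ha hb hl v hu
      (show ‖(0:H)‖ ≤ R by simpa using hR)
    rw [sub_zero] at h1
    have h2 := norm_add_le (DI ι g a b lam v u - DI ι g a b lam v 0) (DI ι g a b lam v 0)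
    rw [sub_add_cancel] at h2
    have h3 : Lc ι p C1 a b lam R * ‖u‖ ≤ Lc ι p C1 a b lam R * R := by
      have := Lc_nonneg (ι := ι) (p := p) hD.hC1 ha hb hl hR
      gcongr
    linarith
  obtain ⟨Λ, hΛ⟩ : ∃ Λ, Λ = Lc ι p C1 a b lam (R + D) := ⟨_, rfl⟩
  have hΛ0 : 0 ≤ Λ := by rw [hΛ]; exact Lc_nonneg hD.hC1 ha hb hl (by positivity)
  refine ⟨1 / (2 * (Λ + 1)), by positivity, fun u hu => ?_⟩
  obtain ⟨τ, hτ⟩ : ∃ τ, τ = 1 / (2 * (Λ + 1)) := ⟨_, rfl⟩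
  rw [← hτ]
  have hτ0 : 0 < τ := by rw [hτ]; positivity
  have hτ1 : τ * (Λ + 1) = 1 / 2 := by rw [hτ]; field_simp
  have hτ2 : τ ≤ 1 := by nlinarith
  obtain ⟨d, hd⟩ : ∃ d, d = DI ι g a b lam v u := ⟨_, rfl⟩
  have hdb : ‖d‖ ≤ D := by rw [hd]; exact hbd u hu
  rw [← hd]
  have h1 : ‖u - τ • d‖ ≤ R + D := by
    refine (norm_sub_le _ _).trans ?_
    rw [norm_smul, Real.norm_eq_abs, abs_of_pos hτ0]
    have : τ * ‖d‖ ≤ 1 * D := mul_le_mul hτ2 hdb (norm_nonneg _) zero_le_one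
    linarith
  have h2 := taylor (a := a) (b := b) (lam := lam) hD ha hb hl v
    (show ‖u‖ ≤ R + D by linarith) h1
  rw [← hd, ← hΛ, show u - τ • d - u = -(τ • d) by abel, norm_neg, inner_neg_right,
    real_inner_smul_right, real_inner_self_eq_norm_sq, norm_smul, Real.norm_eq_abs,
    abs_of_pos hτ0] at h2
  have h3 := (abs_le.1 h2).2
  have h4 : Λ * (τ * ‖d‖) ^ 2 ≤ τ / 2 * ‖d‖ ^ 2 := by
    have h5 : Λ * τ ≤ 1 / 2 := by nlinarith
    have h6 : 0 ≤ τ * ‖d‖ ^ 2 := by positivity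
    nlinarith
  linarith

/-- The identity `I(u) - I'(u)u = -a/2 A - 3b/4 A² + (p-1) G + λ/2 |ιu|²`, as an inequality. -/
lemma energy_ge (hD : Dat ι G g p C0 C1 κ) (hl : 0 ≤ lam) (v : L) (u : H) :
    -(a / 2 * ‖u‖ ^ 2) - 3 * b / 4 * ‖u‖ ^ 4 ≤
      II ι G a b lam v u - ⟪DI ι g a b lam v u, u⟫ := by
  rw [inner_DI, hD.gu, real_inner_self_eq_norm_sq, real_inner_self_eq_norm_sq]
  unfold II
  have h1 := hD.G0 u
  have h2 := hD.hp2
  rw [real_inner_comm v (ι u)]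
  have h3 : 0 ≤ (p - 1) * G u := mul_nonneg (by linarith) h1
  have h4 : 0 ≤ lam * ‖ι u‖ ^ 2 := by positivity
  nlinarith

end

end Pool.Agent.R217.KM
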