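import Pool.Agent.R217.KM.Abs1

set_option autoImplicit false

open Filter Topology Set
open scoped RealInnerProductSpace

namespace Pool.Agent.R217.KM

variable {H L : Type*} [NormedAddCommGroup H] [InnerProductSpace ℝ H] [CompleteSpace H]
  [NormedAddCommGroup L] [InnerProductSpace ℝ L] [CompleteSpace L]
  {ι : H →L[ℝ] L} {G : H → ℝ} {g : H → H} {p C0 C1 κ a b lam : ℝ}

/-- Pairs inequality behind the Palais-Smale condition. -/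
lemma pair_ineq (hD : Dat ι G g p C0 C1 κ) (hb : 0 ≤ b) (hl : 0 ≤ lam) (v : L)
    {M : ℝ} {u w : H} (hu : ‖u‖ ≤ M) (hw : ‖w‖ ≤ M) :
    (a + b * ‖u‖ ^ 2 - C1 * (‖u‖ ^ (p - 2) + ‖w‖ ^ (p - 2))) * ‖u - w‖ ^ 2 ≤
      2 * M * ‖DI ι g a b lam v u - DI ι g a b lam v w‖ +
        2 * b * M ^ 2 * |‖u‖ ^ 2 - ‖w‖ ^ 2| + lam * ‖ι u - ι w‖ ^ 2 := by
  have hM : 0 ≤ M := (norm_nonneg _).trans hu
  have e1 : ⟪DI ι g a b lam v u - DI ι g a b lam v w, u - w⟫ =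
      (a + b * ‖u‖ ^ 2) * ‖u - w‖ ^ 2 + b * (‖u‖ ^ 2 - ‖w‖ ^ 2) * ⟪w, u - w⟫ -
        ⟪g u - g w, u - w⟫ - lam * ‖ι u - ι w‖ ^ 2 := by
    rw [inner_sub_left, inner_DI, inner_DI, inner_sub_left (g u), ← real_inner_self_eq_norm_sq (u - w),
      ← real_inner_self_eq_norm_sq (ι u - ι w), ← map_sub ι u w, inner_sub_left u w,
      map_sub ι u w, inner_sub_left (ι u) (ι w)]
    ring
  have hn : ‖u - w‖ ≤ 2 * M := by
    have := norm_sub_le u w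
    linarith
  have h1 : ⟪DI ι g a b lam v u - DI ι g a b lam v w, u - w⟫ ≤
      2 * M * ‖DI ι g a b lam v u - DI ι g a b lam v w‖ := by
    refine (real_inner_le_norm _ _).trans ?_
    rw [mul_comm (2 * M)]
    exact mul_le_mul_of_nonneg_left hn (norm_nonneg _)
  have h2 : -(b * (‖u‖ ^ 2 - ‖w‖ ^ 2) * ⟪w, u - w⟫) ≤ 2 * b * M ^ 2 * |‖u‖ ^ 2 - ‖w‖ ^ 2| := by
    have h3 := abs_real_inner_le_norm w (u - w)
    have h4 : |⟪w, u - w⟫| ≤ M * (2 * M) :=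
      h3.trans (mul_le_mul hw hn (norm_nonneg _) hM)
    calc -(b * (‖u‖ ^ 2 - ‖w‖ ^ 2) * ⟪w, u - w⟫) ≤ |b * (‖u‖ ^ 2 - ‖w‖ ^ 2) * ⟪w, u - w⟫| :=
          neg_le_abs _
      _ = b * |‖u‖ ^ 2 - ‖w‖ ^ 2| * |⟪w, u - w⟫| := by
          rw [abs_mul, abs_mul, abs_of_nonneg hb]
      _ ≤ b * |‖u‖ ^ 2 - ‖w‖ ^ 2| * (M * (2 * M)) := by gcongr
      _ = _ := by ring
  have h3 : ⟪g u - g w, u - w⟫ ≤ C1 * (‖u‖ ^ (p - 2) + ‖w‖ ^ (p - 2)) * ‖u - w‖ ^ 2 := by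
    refine (real_inner_le_norm _ _).trans ?_
    rw [pow_two, ← mul_assoc]
    exact mul_le_mul_of_nonneg_right (hD.gL u w) (norm_nonneg _)
  linarith [e1]

/-- The Palais-Smale condition at low levels. -/
lemma PS (hD : Dat ι G g p C0 C1 κ) (ha : 0 ≤ a) (hb : 0 < b) (hl : 0 ≤ lam) (v : L)
    {r2 : ℝ} (h0 : 0 ≤ r2) (hr2 : ∀ r, r2 ≤ r → 2 * C1 * r ^ (p - 2) + 1 ≤ b * r ^ 2)
    {u : ℕ → H} {M : ℝ} (hM : ∀ k, ‖u k‖ ≤ M)
    (hd : Tendsto (fun k => DI ι g a b lam v (u k)) atTop (𝓝 0))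
    (hI : ∀ k, II ι G a b lam v (u k) ≤ -(a / 2 * r2 ^ 2 + 3 * b / 4 * r2 ^ 4) - 1) :
    ∃ (ns : ℕ → ℕ) (z : H), StrictMono ns ∧ Tendsto (fun k => u (ns k)) atTop (𝓝 z) := by
  have hM0 : 0 ≤ M := (norm_nonneg _).trans (hM 0)
  have hK : IsCompact (closure (ι '' Metric.closedBall 0 M)) :=
    (hD.cpt M).closure.isCompact_of_isClosed isClosed_closure
  have hK2 : IsCompact (closure (ι '' Metric.closedBall 0 M) ×ˢ Icc (0:ℝ) M) :=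
    hK.prod isCompact_Icc
  obtain ⟨⟨y, r⟩, -, ns, hns, hlim⟩ := hK2.tendsto_subseq (x := fun k => (ι (u k), ‖u k‖))
    (fun k => ⟨subset_closure ⟨u k, by simpa using hM k, rfl⟩, norm_nonneg _, hM k⟩)
  have l1 : Tendsto (fun k => ι (u (ns k))) atTop (𝓝 y) :=
    (continuous_fst.tendsto _).comp hlim
  have l2 : Tendsto (fun k => ‖u (ns k)‖) atTop (𝓝 r) :=
    (continuous_snd.tendsto _).comp hlim
  have l3 : Tendsto (fun k => DI ι g a b lam v (u (ns k))) atTop (𝓝 0) := hd.comp hns.tendsto_atTop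
  have hr0 : 0 ≤ r := ge_of_tendsto' l2 fun k => norm_nonneg _
  -- the limit of the norms is large
  have hr : r2 < r := by
    by_contra hcon
    push Not at hcon
    have l4 : Tendsto (fun k => ⟪DI ι g a b lam v (u (ns k)), u (ns k)⟫) atTop (𝓝 0) := by
      apply squeeze_zero_norm (a := fun k => ‖DI ι g a b lam v (u (ns k))‖ * M)
      · intro k
        exact (norm_inner_le_norm _ _).trans (mul_le_mul_of_nonneg_left (hM _) (norm_nonneg _))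
      · have := l3.norm.mul_const M
        simpa using this
    have l5 : Tendsto (fun k => -(a / 2 * ‖u (ns k)‖ ^ 2) - 3 * b / 4 * ‖u (ns k)‖ ^ 4) atTop
        (𝓝 (-(a / 2 * r ^ 2) - 3 * b / 4 * r ^ 4)) :=
      (((l2.pow 2).const_mul _).neg).sub ((l2.pow 4).const_mul _)
    have l6 : Tendsto (fun k => -(a / 2 * r2 ^ 2 + 3 * b / 4 * r2 ^ 4) - 1 -
        ⟪DI ι g a b lam v (u (ns k)), u (ns k)⟫) atTop
        (𝓝 (-(a / 2 * r2 ^ 2 + 3 * b / 4 * r2 ^ 4) - 1 - 0)) := l4.const_sub _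
    have h1 := le_of_tendsto_of_tendsto' l5 l6 fun k => by
      have := energy_ge (a := a) (b := b) (lam := lam) hD hl v (u (ns k))
      have := hI (ns k)
      linarith
    have h2 : r ^ 2 ≤ r2 ^ 2 := pow_le_pow_left₀ hr0 hcon 2
    have h3 : r ^ 4 ≤ r2 ^ 4 := pow_le_pow_left₀ hr0 hcon 4
    have h4 : a / 2 * r ^ 2 ≤ a / 2 * r2 ^ 2 := by gcongr
    have h5 : 3 * b / 4 * r ^ 4 ≤ 3 * b / 4 * r2 ^ 4 := by gcongr
    linarith
  have hp := hD.hp2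
  -- the coefficient is eventually bounded below
  have hfst : Tendsto Prod.fst (atTop : Filter (ℕ × ℕ)) atTop := by
    rw [← prod_atTop_atTop_eq]; exact tendsto_fst
  have hsnd : Tendsto Prod.snd (atTop : Filter (ℕ × ℕ)) atTop := by
    rw [← prod_atTop_atTop_eq]; exact tendsto_snd
  have a1 : Tendsto (fun q : ℕ × ℕ => ‖u (ns q.1)‖) atTop (𝓝 r) := l2.comp hfst
  have a2 : Tendsto (fun q : ℕ × ℕ => ‖u (ns q.2)‖) atTop (𝓝 r) := l2.comp hsnd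
  have hpp : 0 ≤ p - 2 := by linarith
  have a3 : Tendsto (fun q : ℕ × ℕ => a + b * ‖u (ns q.1)‖ ^ 2 -
      C1 * (‖u (ns q.1)‖ ^ (p - 2) + ‖u (ns q.2)‖ ^ (p - 2))) atTop
      (𝓝 (a + b * r ^ 2 - C1 * (r ^ (p - 2) + r ^ (p - 2)))) :=
    (((a1.pow 2).const_mul b).const_add a).sub
      (((a1.rpow_const (Or.inr hpp)).add (a2.rpow_const (Or.inr hpp))).const_mul C1)
  have hco : (1:ℝ) / 2 < a + b * r ^ 2 - C1 * (r ^ (p - 2) + r ^ (p - 2)) := by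
    have := hr2 r hr.le
    linarith
  have a4 := a3.eventually (lt_mem_nhds hco)
  -- the right side tends to zero
  have b1 : Tendsto (fun q : ℕ × ℕ => ‖DI ι g a b lam v (u (ns q.1)) -
      DI ι g a b lam v (u (ns q.2))‖) atTop (𝓝 0) := by
    have := ((l3.comp hfst).sub (l3.comp hsnd)).norm
    simpa using this
  have b2 : Tendsto (fun q : ℕ × ℕ => |‖u (ns q.1)‖ ^ 2 - ‖u (ns q.2)‖ ^ 2|) atTop (𝓝 0) := by
    have := ((a1.pow 2).sub (a2.pow 2)).abs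
    simpa using this
  have b3 : Tendsto (fun q : ℕ × ℕ => ‖ι (u (ns q.1)) - ι (u (ns q.2))‖ ^ 2) atTop (𝓝 0) := by
    have := (((l1.comp hfst).sub (l1.comp hsnd)).norm).pow 2
    simpa using this
  have b4 : Tendsto (fun q : ℕ × ℕ => 2 * (2 * M * ‖DI ι g a b lam v (u (ns q.1)) -
      DI ι g a b lam v (u (ns q.2))‖ + 2 * b * M ^ 2 * |‖u (ns q.1)‖ ^ 2 - ‖u (ns q.2)‖ ^ 2| +
      lam * ‖ι (u (ns q.1)) - ι (u (ns q.2))‖ ^ 2)) atTop (𝓝 0) := by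
    have := ((((b1.const_mul (2 * M)).add (b2.const_mul (2 * b * M ^ 2))).add
      (b3.const_mul lam)).const_mul 2)
    simpa using this
  have b5 : Tendsto (fun q : ℕ × ℕ => ‖u (ns q.1) - u (ns q.2)‖ ^ 2) atTop (𝓝 0) := by
    refine squeeze_zero' (Eventually.of_forall fun q => by positivity) ?_ b4
    filter_upwards [a4] with q hq
    have h1 := pair_ineq (a := a) (b := b) (lam := lam) hD hb.le hl v (hM (ns q.1)) (hM (ns q.2))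
    have h2 : 1 / 2 * ‖u (ns q.1) - u (ns q.2)‖ ^ 2 ≤ (a + b * ‖u (ns q.1)‖ ^ 2 -
        C1 * (‖u (ns q.1)‖ ^ (p - 2) + ‖u (ns q.2)‖ ^ (p - 2))) *
          ‖u (ns q.1) - u (ns q.2)‖ ^ 2 := by
      apply mul_le_mul_of_nonneg_right hq.le (by positivity)
    linarith
  have hC : CauchySeq (fun k => u (ns k)) := by
    rw [cauchySeq_iff_tendsto_dist_atTop_0]
    have h1 := b5.sqrt
    rw [Real.sqrt_zero] at h1
    refine h1.congr fun q => ?_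
    rw [Real.sqrt_sq (norm_nonneg _), dist_eq_norm]
  obtain ⟨z, hz⟩ := cauchySeq_tendsto_of_complete hC
  exact ⟨ns, z, hns, hz⟩

/-- Lower bound of the functional. -/
lemma II_ge (hD : Dat ι G g p C0 C1 κ) (ha : 0 ≤ a) (hl : 0 ≤ lam) {V : ℝ} {v : L}
    (hv : ‖v‖ ≤ V) (u : H) :
    b / 4 * ‖u‖ ^ 4 - C0 * ‖u‖ ^ p - lam / 2 * ‖ι‖ ^ 2 * ‖u‖ ^ 2 - lam * ‖ι‖ * V * ‖u‖ ≤
      II ι G a b lam v u := by
  unfold II
  have h1 := hD.GC u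
  have h2 := ι.le_opNorm u
  have h3 : ‖ι u‖ ^ 2 ≤ ‖ι‖ ^ 2 * ‖u‖ ^ 2 := by
    rw [← mul_pow]
    exact pow_le_pow_left₀ (norm_nonneg _) h2 2
  have h4 : -⟪ι u, v⟫ ≤ ‖ι‖ * ‖u‖ * V := by
    refine (neg_le_abs _).trans ((abs_real_inner_le_norm _ _).trans ?_)
    exact mul_le_mul h2 hv (norm_nonneg _) (by positivity)
  have h5 : 0 ≤ a / 2 * ‖u‖ ^ 2 := by positivity
  have h6 : lam / 2 * ‖ι u‖ ^ 2 ≤ lam / 2 * (‖ι‖ ^ 2 * ‖u‖ ^ 2) := by gcongr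
  have h7 : lam * -⟪ι u, v⟫ ≤ lam * (‖ι‖ * ‖u‖ * V) := by gcongr
  linarith

lemma coer (hD : Dat ι G g p C0 C1 κ) (ha : 0 ≤ a) (hb : 0 < b) (hl : 0 ≤ lam) (V M : ℝ) :
    ∃ R : ℝ, 0 ≤ R ∧ ∀ v : L, ‖v‖ ≤ V → ∀ u : H, II ι G a b lam v u ≤ M → ‖u‖ ≤ R := by
  obtain ⟨R, hR1, hR⟩ := grow hD.hp2 hD.hp4 (show 0 < b / 4 by positivity) C0
    (lam / 2 * ‖ι‖ ^ 2) (lam * ‖ι‖ * V) (M + 1)
  refine ⟨R, by linarith, fun v hv u hu => ?_⟩
  by_contra hcon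
  push Not at hcon
  have h1 := hR ‖u‖ hcon.le
  have h2 := II_ge (a := a) (b := b) (lam := lam) hD ha hl hv u
  linarith

lemma bdd (hD : Dat ι G g p C0 C1 κ) (ha : 0 ≤ a) (hb : 0 < b) (hl : 0 ≤ lam) (v : L) :
    ∃ B : ℝ, ∀ u : H, B ≤ II ι G a b lam v u := by
  obtain ⟨R, hR0, hR⟩ := coer hD ha hb hl ‖v‖ 0
  refine ⟨min 0 (-(C0 * R ^ p + lam / 2 * ‖ι‖ ^ 2 * R ^ 2 + lam * ‖ι‖ * ‖v‖ * R)), fun u => ?_⟩
  rcases le_or_gt (II ι G a b lam v u) 0 with h | h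
  · refine (min_le_right _ _).trans ?_
    have h1 := hR v le_rfl u h
    have h2 := II_ge (a := a) (b := b) (lam := lam) hD ha hl (le_refl ‖v‖) u
    have hC0 := hD.hC0
    have hp := hD.hp2
    have h3 : C0 * ‖u‖ ^ p ≤ C0 * R ^ p := by
      gcongr
    have h4 : lam / 2 * ‖ι‖ ^ 2 * ‖u‖ ^ 2 ≤ lam / 2 * ‖ι‖ ^ 2 * R ^ 2 := by gcongr
    have h5 : lam * ‖ι‖ * ‖v‖ * ‖u‖ ≤ lam * ‖ι‖ * ‖v‖ * R := by gcongr
    have h6 : 0 ≤ b / 4 * ‖u‖ ^ 4 := by positivity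
    linarith
  · exact (min_le_left _ _).trans h.le

/-- Minimizing sequences are Palais-Smale sequences. -/
lemma DI_to_zero (hD : Dat ι G g p C0 C1 κ) (ha : 0 ≤ a) (hb : 0 < b) (hl : 0 ≤ lam) (v : L)
    {m : ℝ} (hm : ∀ w, m ≤ II ι G a b lam v w) {u : ℕ → H} {R : ℝ} (hR : ∀ k, ‖u k‖ ≤ R)
    (hu : Tendsto (fun k => II ι G a b lam v (u k)) atTop (𝓝 m)) :
    Tendsto (fun k => DI ι g a b lam v (u k)) atTop (𝓝 0) := by
  obtain ⟨τ, hτ, hs⟩ := step (a := a) (b := b) (lam := lam) hD ha hb.le hl v R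
  rw [tendsto_zero_iff_norm_tendsto_zero]
  have h1 : Tendsto (fun k => 2 / τ * (II ι G a b lam v (u k) - m)) atTop (𝓝 0) := by
    have := (hu.sub_const m).const_mul (2 / τ)
    simpa using this
  have h2 : Tendsto (fun k => ‖DI ι g a b lam v (u k)‖ ^ 2) atTop (𝓝 0) := by
    refine squeeze_zero (fun k => by positivity) (fun k => ?_) h1
    have h3 := hs (u k) (hR k)
    have h4 := hm (u k - τ • DI ι g a b lam v (u k))
    have h5 : τ / 2 * ‖DI ι g a b lam v (u k)‖ ^ 2 ≤ II ι G a b lam v (u k) - m := by linarith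
    calc ‖DI ι g a b lam v (u k)‖ ^ 2 = 2 / τ * (τ / 2 * ‖DI ι g a b lam v (u k)‖ ^ 2) := by
          field_simp
      _ ≤ _ := by gcongr
  have h3 := h2.sqrt
  rw [Real.sqrt_zero] at h3
  refine h3.congr fun k => ?_
  rw [Real.sqrt_sq (norm_nonneg _)]

/-- Minimizing sequences have convergent subsequences. -/
lemma min_seq (hD : Dat ι G g p C0 C1 κ) (ha : 0 ≤ a) (hb : 0 < b) (hl : 0 ≤ lam) (v : L)
    {r2 : ℝ} (h0 : 0 ≤ r2) (hr2 : ∀ r, r2 ≤ r → 2 * C1 * r ^ (p - 2) + 1 ≤ b * r ^ 2)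
    {m : ℝ} (hm : ∀ w, m ≤ II ι G a b lam v w)
    (hm2 : m < -(a / 2 * r2 ^ 2 + 3 * b / 4 * r2 ^ 4) - 1) {u : ℕ → H}
    (hu : Tendsto (fun k => II ι G a b lam v (u k)) atTop (𝓝 m)) :
    ∃ (ns : ℕ → ℕ) (z : H), StrictMono ns ∧ Tendsto (fun k => u (ns k)) atTop (𝓝 z) ∧
      II ι G a b lam v z = m ∧ DI ι g a b lam v z = 0 := by
  have ev := hu.eventually (gt_mem_nhds hm2)
  rw [eventually_atTop] at ev
  obtain ⟨N, hN⟩ := ev
  obtain ⟨R, -, hR⟩ := coer (a := a) (b := b) (lam := lam) hD ha hb hl ‖v‖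
    (-(a / 2 * r2 ^ 2 + 3 * b / 4 * r2 ^ 4) - 1)
  have hI : ∀ k, II ι G a b lam v (u (k + N)) ≤ -(a / 2 * r2 ^ 2 + 3 * b / 4 * r2 ^ 4) - 1 :=
    fun k => (hN (k + N) (by omega)).le
  have hb' : ∀ k, ‖u (k + N)‖ ≤ R := fun k => hR v le_rfl _ (hI k)
  have hu' : Tendsto (fun k => II ι G a b lam v (u (k + N))) atTop (𝓝 m) :=
    (tendsto_add_atTop_iff_nat N).2 hu
  have hd := DI_to_zero hD ha hb hl v hm hb' hu'
  obtain ⟨ns, z, hns, hz⟩ := PS hD ha hb hl v h0 hr2 hb' hd hI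
  refine ⟨fun k => ns k + N, z, fun i j hij => by
    have := hns hij
    dsimp only
    omega, hz, ?_, ?_⟩
  · exact tendsto_nhds_unique (((II_continuous hD ha hb.le hl v).tendsto z).comp hz)
      (hu'.comp hns.tendsto_atTop)
  · exact tendsto_nhds_unique (((DI_continuous hD ha hb.le hl v).tendsto z).comp hz)
      (hd.comp hns.tendsto_atTop)

/-- The infimum is very negative. -/
lemma low (hD : Dat ι G g p C0 C1 κ) (ha : 0 ≤ a) (hb : 0 < b) (v : L) :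
    ∃ w : H, II ι G a b lam v w ≤ a / 2 * κ ^ 2 + b / 4 * κ ^ 4 - lam / 2 := by
  obtain ⟨w, h1, h2, h3⟩ := hD.W (fun _ => ((innerSL ℝ v).comp ι : H →L[ℝ] ℝ))
  refine ⟨w, ?_⟩
  have h4 : ⟪ι w, v⟫ = 0 := by
    have := h3 0
    rw [real_inner_comm]
    exact this
  unfold II
  rw [h4, h1]
  have h5 := hD.G0 w
  have h6 : a / 2 * ‖w‖ ^ 2 ≤ a / 2 * κ ^ 2 := by gcongr
  have h7 : b / 4 * ‖w‖ ^ 4 ≤ b / 4 * κ ^ 4 := by gcongr
  linarith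

/-- Existence of global minimizers. -/
lemma exists_min (hD : Dat ι G g p C0 C1 κ) (ha : 0 ≤ a) (hb : 0 < b) (hl : 0 ≤ lam) (v : L)
    {r2 : ℝ} (h0 : 0 ≤ r2) (hr2 : ∀ r, r2 ≤ r → 2 * C1 * r ^ (p - 2) + 1 ≤ b * r ^ 2)
    (hlam : a / 2 * κ ^ 2 + b / 4 * κ ^ 4 - lam / 2 <
      -(a / 2 * r2 ^ 2 + 3 * b / 4 * r2 ^ 4) - 1) :
    ∃ u : H, ∀ w, II ι G a b lam v u ≤ II ι G a b lam v w := by
  obtain ⟨B, hB⟩ := bdd hD ha hb hl v
  have hbd : BddBelow (range (II ι G a b lam v)) := ⟨B, by rintro _ ⟨u, rfl⟩; exact hB u⟩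
  obtain ⟨s, hs1, hs2, hs3⟩ := exists_seq_tendsto_sInf (range_nonempty (II ι G a b lam v)) hbd
  choose u hu using hs3
  have hm : ∀ w, sInf (range (II ι G a b lam v)) ≤ II ι G a b lam v w := fun w =>
    csInf_le hbd ⟨w, rfl⟩
  obtain ⟨w0, hw0⟩ := low (lam := lam) hD ha hb v
  have hu' : Tendsto (fun k => II ι G a b lam v (u k)) atTop
      (𝓝 (sInf (range (II ι G a b lam v)))) := by
    refine hs2.congr fun k => (hu k).symm
  obtain ⟨ns, z, -, -, hz, -⟩ := min_seq hD ha hb hl v h0 hr2 hm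
    (lt_of_le_of_lt ((hm w0).trans hw0) hlam) hu'
  exact ⟨z, fun w => hz ▸ hm w⟩

lemma DI_eq_zero (hD : Dat ι G g p C0 C1 κ) (ha : 0 ≤ a) (hb : 0 ≤ b) (hl : 0 ≤ lam) (v : L)
    {u : H} (hu : ∀ w, II ι G a b lam v u ≤ II ι G a b lam v w) : DI ι g a b lam v u = 0 := by
  obtain ⟨τ, hτ, hs⟩ := step (a := a) (b := b) (lam := lam) hD ha hb hl v ‖u‖
  have h1 := hs u le_rfl
  have h2 := hu (u - τ • DI ι g a b lam v u)
  have h3 : τ / 2 * ‖DI ι g a b lam v u‖ ^ 2 ≤ 0 := by linarith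
  have h4 : ‖DI ι g a b lam v u‖ ^ 2 ≤ 0 := by
    by_contra hcon
    push Not at hcon
    have : 0 < τ / 2 * ‖DI ι g a b lam v u‖ ^ 2 := by positivity
    linarith
  have h5 : ‖DI ι g a b lam v u‖ = 0 := by
    have := sq_nonneg ‖DI ι g a b lam v u‖
    exact pow_eq_zero_iff (two_ne_zero) |>.1 (le_antisymm h4 this)
  exact norm_eq_zero.1 h5

end Pool.Agent.R217.KM
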