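import Pool.Agent.R217.KM.Abs2

set_option autoImplicit false
set_option linter.unusedSectionVars false
set_option linter.unusedVariables false

open Filter Topology Set
open scoped RealInnerProductSpace

namespace Pool.Agent.R217.KM

variable {H L : Type*} [NormedAddCommGroup H] [InnerProductSpace ℝ H] [CompleteSpace H]
  [NormedAddCommGroup L] [InnerProductSpace ℝ L] [CompleteSpace L]
  {ι : H →L[ℝ] L} {G : H → ℝ} {g : H → H} {p C0 C1 κ a b lam : ℝ}

lemma G_zero (hD : Dat ι G g p C0 C1 κ) : G 0 = 0 := by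
  have h1 := hD.G0 0
  have h2 := hD.GC 0
  have hp := hD.hp2
  rw [norm_zero, Real.zero_rpow (by linarith), mul_zero] at h2
  linarith

lemma II_zero (hD : Dat ι G g p C0 C1 κ) (v : L) : II ι G a b lam v 0 = 0 := by
  unfold II
  rw [G_zero hD, map_zero, norm_zero, norm_zero, inner_zero_left]
  ring

/-- `E_v = J - λ/2 |ιu - v|²`. -/
lemma II_eq (v : L) (u : H) : II ι G a b lam v u =
    (a / 2 * ‖u‖ ^ 2 + b / 4 * ‖u‖ ^ 4 - G u) - lam / 2 * ‖ι u - v‖ ^ 2 + lam / 2 * ‖v‖ ^ 2 := by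
  unfold II
  rw [norm_sub_sq_real]
  ring

lemma dist_expand (x v w : L) (t : ℝ) :
    ‖x - (v + t • (w - v))‖ ^ 2 = ‖x - v‖ ^ 2 - 2 * t * ⟪x - v, w - v⟫ + t ^ 2 * ‖w - v‖ ^ 2 := by
  have e : x - (v + t • (w - v)) = (x - v) - t • (w - v) := by abel
  rw [e, norm_sub_sq_real, real_inner_smul_right, norm_smul, Real.norm_eq_abs, mul_pow, sq_abs]
  ring

/-- Two global minimizers for some `v` in a dense convex set. -/
theorem two_min (hD : Dat ι G g p C0 C1 κ) (ha : 0 ≤ a) (hb : 0 < b) (hl : 0 < lam)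
    {r2 : ℝ} (h0 : 0 ≤ r2) (hr2 : ∀ r, r2 ≤ r → 2 * C1 * r ^ (p - 2) + 1 ≤ b * r ^ 2)
    (hlam : a / 2 * κ ^ 2 + b / 4 * κ ^ 4 - lam / 2 <
      -(a / 2 * r2 ^ 2 + 3 * b / 4 * r2 ^ 4) - 1)
    {j0 : ℝ} (hj : ∀ u : H, -j0 ≤ a / 2 * ‖u‖ ^ 2 + b / 4 * ‖u‖ ^ 4 - G u)
    (hlam2 : a / 2 * κ ^ 2 + b / 4 * κ ^ 4 - lam / 2 + 1 / 2 < -j0)
    {C : Set L} (hC : Convex ℝ C) (hCd : range ι ⊆ closure C) :
    ∃ v ∈ C, ∃ u1 u2 : H, u1 ≠ u2 ∧ (∀ w, II ι G a b lam v u1 ≤ II ι G a b lam v w) ∧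
      (∀ w, II ι G a b lam v u2 ≤ II ι G a b lam v w) := by
  by_contra hcon
  push Not at hcon
  have huniq : ∀ v ∈ C, ∀ u1 u2 : H, (∀ w, II ι G a b lam v u1 ≤ II ι G a b lam v w) →
      (∀ w, II ι G a b lam v u2 ≤ II ι G a b lam v w) → u1 = u2 := by
    intro v hv u1 u2 h1 h2
    by_contra hne
    obtain ⟨w, hw⟩ := hcon v hv u1 u2 hne h1
    exact absurd (h2 w) (by linarith)
  have hex := fun v : L => exists_min hD ha hb hl.le v h0 hr2 hlam
  choose um hum using hex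
  -- the value function
  obtain ⟨φ, hφ⟩ : ∃ φ : L → ℝ, ∀ v, φ v = II ι G a b lam v (um v) - lam / 2 * ‖v‖ ^ 2 :=
    ⟨_, fun v => rfl⟩
  have hφle : ∀ v w, φ v ≤ II ι G a b lam v w - lam / 2 * ‖v‖ ^ 2 := by
    intro v w
    rw [hφ]
    have := hum v w
    linarith
  have hφ0 : ∀ v, φ v ≤ -(lam / 2 * ‖v‖ ^ 2) := by
    intro v
    have := hφle v 0
    rw [II_zero hD] at this
    linarith
  obtain ⟨w1, hw1⟩ : C.Nonempty := by
    rw [← closure_nonempty_iff]
    exact ⟨_, hCd ⟨0, rfl⟩⟩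
  -- a priori bound for the maximizer
  obtain ⟨V, hV⟩ : ∃ V, V = Real.sqrt (2 / lam * |φ w1|) := ⟨_, rfl⟩
  have hVb : ∀ v, φ w1 ≤ φ v → ‖v‖ ≤ V := by
    intro v hv
    rw [hV]
    apply Real.le_sqrt_of_sq_le
    have h1 := hφ0 v
    have h2 : -φ w1 ≤ |φ w1| := neg_le_abs _
    have h3 : lam / 2 * ‖v‖ ^ 2 ≤ |φ w1| := by linarith
    calc ‖v‖ ^ 2 = 2 / lam * (lam / 2 * ‖v‖ ^ 2) := by field_simp
      _ ≤ _ := by gcongr
  obtain ⟨R, hR0, hR⟩ := coer (a := a) (b := b) (lam := lam) hD ha hb hl.le V 0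
  -- the net
  obtain ⟨δ, hδ⟩ : ∃ δ, δ = 1 / (2 * Real.sqrt lam) := ⟨_, rfl⟩
  have hsl : 0 < Real.sqrt lam := Real.sqrt_pos.2 hl
  have hδ0 : 0 < δ := by rw [hδ]; positivity
  have hδ2 : lam / 2 * (2 * δ) ^ 2 = 1 / 2 := by
    rw [hδ]
    have : Real.sqrt lam ^ 2 = lam := Real.sq_sqrt hl.le
    field_simp
    linarith
  obtain ⟨t, hts, htf, htc⟩ := Metric.finite_approx_of_totallyBounded (hD.cpt R) δ hδ0
  have hnear : ∀ y ∈ t, ∃ w ∈ C, dist y w < δ := by
    intro y hy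
    obtain ⟨u, -, hu⟩ := hts hy
    have h1 : y ∈ closure C := hCd ⟨u, hu⟩
    exact Metric.mem_closure_iff.1 h1 δ hδ0
  choose! wy hwy using hnear
  obtain ⟨F, hF⟩ : ∃ F : Set L, F = insert w1 (wy '' t) := ⟨_, rfl⟩
  have hFf : F.Finite := by rw [hF]; exact (htf.image _).insert _
  have hFC : F ⊆ C := by
    rw [hF]
    rintro x (rfl | ⟨y, hy, rfl⟩)
    · exact hw1
    · exact (hwy y hy).1
  obtain ⟨K, hK⟩ : ∃ K : Set L, K = convexHull ℝ F := ⟨_, rfl⟩
  have hKc : IsCompact K := by rw [hK]; exact hFf.isCompact_convexHull (𝕜 := ℝ)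
  have hKC : K ⊆ C := by rw [hK]; exact convexHull_min hFC hC
  have hKv : Convex ℝ K := by rw [hK]; exact convex_convexHull ℝ F
  have hFK : F ⊆ K := by rw [hK]; exact subset_convexHull ℝ F
  have hw1K : w1 ∈ K := hFK (by rw [hF]; exact mem_insert _ _)
  have hcont : ∀ u : H, Continuous fun v : L => II ι G a b lam v u - lam / 2 * ‖v‖ ^ 2 := by
    intro u
    unfold II
    fun_prop
  have husc : UpperSemicontinuousOn φ K := by
    intro v hv y hy
    have h1 : ∀ᶠ v' in 𝓝 v, II ι G a b lam v' (um v) - lam / 2 * ‖v'‖ ^ 2 < y := by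
      apply (hcont (um v)).continuousAt.eventually (gt_mem_nhds _)
      dsimp only
      rw [← hφ]
      exact hy
    apply mem_nhdsWithin_of_mem_nhds
    filter_upwards [h1] with v' hv'
    exact lt_of_le_of_lt (hφle v' (um v)) hv'
  obtain ⟨v, hvK, hvmax⟩ := husc.exists_isMaxOn ⟨w1, hw1K⟩ hKc
  have hvmax' : ∀ w ∈ K, φ w ≤ φ v := fun w hw => hvmax hw
  have hvC := hKC hvK
  have hvV : ‖v‖ ≤ V := hVb v (hvmax' w1 hw1K)
  -- the variational inequality
  have key : ∀ w ∈ K, ⟪ι (um v) - v, w - v⟫ ≤ 0 := by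
    intro w hw
    obtain ⟨tk, htk⟩ : ∃ tk : ℕ → ℝ, ∀ k, tk k = 1 / ((k:ℝ) + 1) := ⟨_, fun k => rfl⟩
    have htk0 : ∀ k, 0 < tk k := fun k => by rw [htk]; positivity
    have htk1 : ∀ k, tk k ≤ 1 := fun k => by
      rw [htk, div_le_one (by positivity)]
      have : (0:ℝ) ≤ k := Nat.cast_nonneg k
      linarith
    have htkl : Tendsto tk atTop (𝓝 0) := by
      have := tendsto_one_div_add_atTop_nhds_zero_nat (𝕜 := ℝ)
      exact this.congr fun k => (htk k).symm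
    obtain ⟨vk, hvk⟩ : ∃ vk : ℕ → L, ∀ k, vk k = v + tk k • (w - v) := ⟨_, fun k => rfl⟩
    have hvkK : ∀ k, vk k ∈ K := by
      intro k
      have e : vk k = (1 - tk k) • v + tk k • w := by rw [hvk]; module
      rw [e]
      exact hKv hvK hw (by linarith [htk1 k]) (htk0 k).le (by ring)
    -- bounded minimizers
    obtain ⟨V2, hV2⟩ := hKc.isBounded.exists_norm_le
    obtain ⟨R2, hR20, hR2⟩ := coer (a := a) (b := b) (lam := lam) hD ha hb hl.le V2 0
    have hb2 : ∀ k, ‖um (vk k)‖ ≤ R2 := by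
      intro k
      apply hR2 _ (hV2 _ (hvkK k))
      have := hum (vk k) 0
      rwa [II_zero hD] at this
    obtain ⟨x, hx⟩ : ∃ x : ℕ → L, ∀ k, x k = ι (um (vk k)) := ⟨_, fun k => rfl⟩
    have hxb : ∀ k, ‖x k‖ ≤ ‖ι‖ * R2 := by
      intro k
      rw [hx]
      exact (ι.le_opNorm _).trans (by gcongr; exact hb2 k)
    have hin : ∀ k, |⟪x k - v, w - v⟫| ≤ (‖ι‖ * R2 + ‖v‖) * ‖w - v‖ := by
      intro k
      refine (abs_real_inner_le_norm _ _).trans ?_
      gcongr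
      exact (norm_sub_le _ _).trans (by linarith [hxb k])
    -- comparison at `v` and `vk`
    have hcmp : ∀ k, II ι G a b lam v (um (vk k)) - lam / 2 * ‖v‖ ^ 2 =
        φ (vk k) + lam / 2 * (tk k ^ 2 * ‖w - v‖ ^ 2 - 2 * tk k * ⟪x k - v, w - v⟫) := by
      intro k
      rw [hφ, II_eq, II_eq, hx]
      have h1 := dist_expand (ι (um (vk k))) v w (tk k)
      rw [← hvk] at h1
      rw [h1]
      ring
    have hineq : ∀ k, ⟪x k - v, w - v⟫ ≤ tk k / 2 * ‖w - v‖ ^ 2 := by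
      intro k
      have h1 := hvmax' _ (hvkK k)
      have h2 := hφle v (um (vk k))
      rw [hcmp] at h2
      have h3 : 0 ≤ tk k * lam * (tk k / 2 * ‖w - v‖ ^ 2 - ⟪x k - v, w - v⟫) := by nlinarith
      have h4 : 0 < tk k * lam := mul_pos (htk0 k) hl
      by_contra hc
      push Not at hc
      have : tk k * lam * (tk k / 2 * ‖w - v‖ ^ 2 - ⟪x k - v, w - v⟫) < 0 :=
        mul_neg_of_pos_of_neg h4 (by linarith)
      linarith
    -- it is a minimizing sequence at `v`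
    have hlim : Tendsto (fun k => II ι G a b lam v (um (vk k))) atTop
        (𝓝 (II ι G a b lam v (um v))) := by
      have hup : Tendsto (fun k => II ι G a b lam v (um v) +
          lam / 2 * (tk k ^ 2 * ‖w - v‖ ^ 2 +
            2 * tk k * ((‖ι‖ * R2 + ‖v‖) * ‖w - v‖))) atTop (𝓝 (II ι G a b lam v (um v))) := by
        have h1 := (((htkl.pow 2).mul_const (‖w - v‖ ^ 2)).add
          ((htkl.const_mul 2).mul_const ((‖ι‖ * R2 + ‖v‖) * ‖w - v‖))).const_mul (lam / 2)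
        have h2 := h1.const_add (II ι G a b lam v (um v))
        simpa using h2
      refine tendsto_of_tendsto_of_tendsto_of_le_of_le tendsto_const_nhds hup
        (fun k => hum v _) (fun k => ?_)
      have h1 := hcmp k
      have h2 := hvmax' _ (hvkK k)
      rw [hφ v] at h2
      have h3 : lam / 2 * (tk k ^ 2 * ‖w - v‖ ^ 2 - 2 * tk k * ⟪x k - v, w - v⟫) ≤
          lam / 2 * (tk k ^ 2 * ‖w - v‖ ^ 2 +
            2 * tk k * ((‖ι‖ * R2 + ‖v‖) * ‖w - v‖)) := by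
        have h4 := (abs_le.1 (hin k)).1
        have h5 := htk0 k
        have h6 : -(2 * tk k * ⟪x k - v, w - v⟫) ≤
            2 * tk k * ((‖ι‖ * R2 + ‖v‖) * ‖w - v‖) := by
          have : 2 * tk k * -⟪x k - v, w - v⟫ ≤ 2 * tk k * ((‖ι‖ * R2 + ‖v‖) * ‖w - v‖) := by
            gcongr
            linarith
          linarith
        gcongr
        linarith
      dsimp only
      linarith
    obtain ⟨w0, hw0⟩ := low (lam := lam) hD ha hb v
    obtain ⟨ns, z, hns, hz, hz2, -⟩ := min_seq hD ha hb hl.le v h0 hr2 (hum v)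
      (lt_of_le_of_lt ((hum v w0).trans hw0) hlam) hlim
    have hzz : z = um v := huniq v hvC z (um v) (fun w => hz2 ▸ hum v w) (hum v)
    have hl1 : Tendsto (fun k => ⟪x (ns k) - v, w - v⟫) atTop (𝓝 ⟪ι (um v) - v, w - v⟫) := by
      have h1 : Tendsto (fun k => ι (um (vk (ns k)))) atTop (𝓝 (ι (um v))) := by
        rw [← hzz]
        exact (ι.continuous.tendsto z).comp hz
      have h2 := (h1.sub_const v).inner (𝕜 := ℝ) (tendsto_const_nhds (x := w - v))
      refine h2.congr fun k => ?_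
      rw [hx]
    have hl2 : Tendsto (fun k => tk (ns k) / 2 * ‖w - v‖ ^ 2) atTop (𝓝 0) := by
      have h1 := (((htkl.comp hns.tendsto_atTop).div_const 2).mul_const (‖w - v‖ ^ 2))
      simpa using h1
    exact le_of_tendsto_of_tendsto' hl1 hl2 fun k => hineq (ns k)
  -- conclusion
  have hub : ‖um v‖ ≤ R := by
    apply hR v hvV
    have := hum v 0
    rwa [II_zero hD] at this
  have hmem : ι (um v) ∈ ⋃ y ∈ t, Metric.ball y δ := htc ⟨um v, by simpa using hub, rfl⟩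
  rw [mem_iUnion₂] at hmem
  obtain ⟨y, hy, hyd⟩ := hmem
  have hwK : wy y ∈ K := hFK (by rw [hF]; exact mem_insert_of_mem _ ⟨y, hy, rfl⟩)
  have hdist : ‖ι (um v) - wy y‖ ≤ 2 * δ := by
    have h1 := dist_triangle (ι (um v)) y (wy y)
    rw [Metric.mem_ball] at hyd
    have h2 := (hwy y hy).2
    rw [← dist_eq_norm]
    linarith
  have hd2 : ‖ι (um v) - v‖ ≤ 2 * δ := by
    have h1 := key _ hwK
    have e : ι (um v) - v = (ι (um v) - wy y) + (wy y - v) := by abel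
    have h2 : ‖ι (um v) - v‖ ^ 2 ≤ ‖ι (um v) - v‖ * (2 * δ) := by
      rw [← real_inner_self_eq_norm_sq]
      conv_lhs => rw [e, inner_add_left, ← e]
      have h3 : ⟪ι (um v) - wy y, ι (um v) - v⟫ ≤ (2 * δ) * ‖ι (um v) - v‖ :=
        (real_inner_le_norm _ _).trans (by gcongr)
      rw [real_inner_comm (ι (um v) - v) (wy y - v)]
      linarith
    rcases eq_or_lt_of_le (norm_nonneg (ι (um v) - v)) with h | h
    · rw [← h]; positivity
    · rw [pow_two] at h2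
      exact le_of_mul_le_mul_left h2 h
  obtain ⟨w0, hw0⟩ := low (lam := lam) hD ha hb v
  have h1 := (hum v w0).trans hw0
  rw [II_eq] at h1
  have h2 := hj (um v)
  have h3 : lam / 2 * ‖ι (um v) - v‖ ^ 2 ≤ lam / 2 * (2 * δ) ^ 2 := by gcongr
  have h4 : 0 ≤ lam / 2 * ‖v‖ ^ 2 := by positivity
  linarith

end Pool.Agent.R217.KM
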