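import Pool.Agent.R217.KM.Abs3

set_option autoImplicit false
set_option linter.unusedSectionVars false
set_option linter.unusedVariables false

open Filter Topology Set
open scoped RealInnerProductSpace

namespace Pool.Agent.R217.KM

variable {H L : Type*} [NormedAddCommGroup H] [InnerProductSpace ℝ H] [CompleteSpace H]
  [NormedAddCommGroup L] [InnerProductSpace ℝ L] [CompleteSpace L]
  {ι : H →L[ℝ] L} {G : H → ℝ} {g : H → H} {p C0 C1 κ a b lam : ℝ}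

/-- A bound for the part of the functional without the critical term at a minimizer. -/
lemma B1_le (hD : Dat ι G g p C0 C1 κ) (ha : 0 ≤ a) (hb : 0 < b) (hl : 0 < lam) (v : L) {u : H}
    (hu : ∀ w, II ι G a b lam v u ≤ II ι G a b lam v w) :
    ⟪ι u, v⟫ ≤ 0 ∧ a / 2 * ‖u‖ ^ 2 + b / 4 * ‖u‖ ^ 4 - lam / 2 * ‖ι u‖ ^ 2 + lam * ⟪ι u, v⟫ ≤
      -(b / 4 * ‖u‖ ^ 4) + p / 2 * (C0 * ‖u‖ ^ p) := by
  have h1 := hu (-u)
  unfold II at h1
  rw [hD.Gn, norm_neg, map_neg, norm_neg, inner_neg_left] at h1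
  have h2 : ⟪ι u, v⟫ ≤ 0 := by
    by_contra hc
    push Not at hc
    have : 0 < lam * ⟪ι u, v⟫ := mul_pos hl hc
    linarith
  refine ⟨h2, ?_⟩
  have h3 := inner_DI (g := g) (a := a) (b := b) (lam := lam) (ι := ι) v u u
  rw [DI_eq_zero hD ha hb.le hl.le v hu, inner_zero_left, hD.gu, real_inner_self_eq_norm_sq,
    real_inner_self_eq_norm_sq, real_inner_comm (ι u) v] at h3
  have h4 : lam * ⟪ι u, v⟫ ≤ 0 := mul_nonpos_of_nonneg_of_nonpos hl.le h2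
  have h5 := hD.GC u
  have hp := hD.hp2
  have h6 : p / 2 * G u ≤ p / 2 * (C0 * ‖u‖ ^ p) := by gcongr
  nlinarith

/-- The functional along an arc. -/
lemma arc (hD : Dat ι G g p C0 C1 κ) (ha : 0 ≤ a) (hb : 0 < b) (hl : 0 < lam) (v : L) {u w : H}
    {s0 : ℝ} (huv : ⟪ι u, v⟫ ≤ 0)
    (h1 : a / 2 * ‖u‖ ^ 2 + b / 4 * ‖u‖ ^ 4 - lam / 2 * ‖ι u‖ ^ 2 + lam * ⟪ι u, v⟫ ≤ s0)
    (h2 : a / 2 * ‖w‖ ^ 2 + b / 4 * ‖w‖ ^ 4 - lam / 2 * ‖ι w‖ ^ 2 ≤ s0)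
    (o1 : ⟪u, w⟫ = 0) (o2 : ⟪ι u, ι w⟫ = 0) (o3 : ⟪ι w, v⟫ = 0) {c s : ℝ} (hc : 0 ≤ c)
    (hcs : c ^ 2 + s ^ 2 = 1) : II ι G a b lam v (c • u + s • w) ≤ s0 := by
  have e1 : ‖c • u + s • w‖ ^ 2 = c ^ 2 * ‖u‖ ^ 2 + s ^ 2 * ‖w‖ ^ 2 := by
    rw [norm_add_sq_real, real_inner_smul_left, real_inner_smul_right, o1, norm_smul, norm_smul,
      mul_pow, mul_pow, Real.norm_eq_abs, Real.norm_eq_abs, sq_abs, sq_abs]
    ring
  have e2 : ‖ι (c • u + s • w)‖ ^ 2 = c ^ 2 * ‖ι u‖ ^ 2 + s ^ 2 * ‖ι w‖ ^ 2 := by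
    rw [map_add, map_smul, map_smul, norm_add_sq_real, real_inner_smul_left, real_inner_smul_right,
      o2, norm_smul, norm_smul, mul_pow, mul_pow, Real.norm_eq_abs, Real.norm_eq_abs, sq_abs, sq_abs]
    ring
  have e3 : ⟪ι (c • u + s • w), v⟫ = c * ⟪ι u, v⟫ := by
    rw [map_add, map_smul, map_smul, inner_add_left, real_inner_smul_left, real_inner_smul_left, o3]
    ring
  have e4 : ‖c • u + s • w‖ ^ 4 = (‖c • u + s • w‖ ^ 2) ^ 2 := by ring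
  unfold II
  rw [e4, e1, e2, e3]
  have hG := hD.G0 (c • u + s • w)
  obtain ⟨A, hA⟩ : ∃ A, A = ‖u‖ ^ 2 := ⟨_, rfl⟩
  obtain ⟨Y, hY⟩ : ∃ Y, Y = ‖w‖ ^ 2 := ⟨_, rfl⟩
  have hA4 : ‖u‖ ^ 4 = A ^ 2 := by rw [hA]; ring
  have hY4 : ‖w‖ ^ 4 = Y ^ 2 := by rw [hY]; ring
  rw [hA4, ← hA] at h1
  rw [hY4, ← hY] at h2
  rw [← hA, ← hY]
  have hs : s ^ 2 = 1 - c ^ 2 := by linarith
  have hc1 : c ^ 2 ≤ 1 := by nlinarith [sq_nonneg s]
  have hc2 : c ≤ 1 := by nlinarith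
  have h3 : (c ^ 2 * A + s ^ 2 * Y) ^ 2 ≤ c ^ 2 * A ^ 2 + s ^ 2 * Y ^ 2 := by
    have : c ^ 2 * A ^ 2 + s ^ 2 * Y ^ 2 - (c ^ 2 * A + s ^ 2 * Y) ^ 2 =
        c ^ 2 * s ^ 2 * (A - Y) ^ 2 := by
      rw [hs]; ring
    have h4 : 0 ≤ c ^ 2 * s ^ 2 * (A - Y) ^ 2 := by positivity
    linarith
  have h4 : c * ⟪ι u, v⟫ ≤ c ^ 2 * ⟪ι u, v⟫ := by
    have : c ^ 2 ≤ c := by nlinarith
    exact mul_le_mul_of_nonpos_right this huv
  have h5 : lam * (c * ⟪ι u, v⟫) ≤ lam * (c ^ 2 * ⟪ι u, v⟫) := by gcongr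
  have h6 : c ^ 2 * (a / 2 * A + b / 4 * A ^ 2 - lam / 2 * ‖ι u‖ ^ 2 + lam * ⟪ι u, v⟫) ≤
      c ^ 2 * s0 := by gcongr
  have h7 : s ^ 2 * (a / 2 * Y + b / 4 * Y ^ 2 - lam / 2 * ‖ι w‖ ^ 2) ≤ s ^ 2 * s0 := by gcongr
  have h8 : b / 4 * (c ^ 2 * A + s ^ 2 * Y) ^ 2 ≤ b / 4 * (c ^ 2 * A ^ 2 + s ^ 2 * Y ^ 2) := by
    gcongr
  have h9 : c ^ 2 * s0 + s ^ 2 * s0 = s0 := by rw [← add_mul, hcs, one_mul]
  linarith

/-- The values `s` such that `u1` and `u2` are joined by a path in `{I ≤ s}`. -/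
def PV (F : H → ℝ) (u1 u2 : H) : Set ℝ :=
  {s | ∃ γ : ℝ → H, Continuous γ ∧ γ 0 = u1 ∧ γ 1 = u2 ∧ ∀ t ∈ Icc (0:ℝ) 1, F (γ t) ≤ s}

/-- The explicit path. -/
lemma path (hD : Dat ι G g p C0 C1 κ) (ha : 0 ≤ a) (hb : 0 < b) (hl : 0 < lam) (v : L)
    {s0 r3 : ℝ} (hr3 : ∀ r, r3 ≤ r → p / 2 * (C0 * r ^ p) - s0 ≤ b / 4 * r ^ 4)
    (hlam : a / 2 * κ ^ 2 + b / 4 * κ ^ 4 - lam / 2 < -(a / 2 * r3 ^ 2 + 3 * b / 4 * r3 ^ 4))
    (hlam2 : a / 2 * κ ^ 2 + b / 4 * κ ^ 4 - lam / 2 ≤ s0) {u1 u2 : H}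
    (h1 : ∀ w, II ι G a b lam v u1 ≤ II ι G a b lam v w)
    (h2 : ∀ w, II ι G a b lam v u2 ≤ II ι G a b lam v w) :
    s0 ∈ PV (II ι G a b lam v) u1 u2 := by
  -- minimizers are large
  have hlarge : ∀ u : H, (∀ w, II ι G a b lam v u ≤ II ι G a b lam v w) → r3 ≤ ‖u‖ := by
    intro u hu
    by_contra hc
    push Not at hc
    have k1 := energy_ge (a := a) (b := b) (lam := lam) hD hl.le v u
    rw [DI_eq_zero hD ha hb.le hl.le v hu, inner_zero_left, sub_zero] at k1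
    obtain ⟨w0, hw0⟩ := low (lam := lam) hD ha hb v
    have k2 := (hu w0).trans hw0
    have k3 : a / 2 * ‖u‖ ^ 2 ≤ a / 2 * r3 ^ 2 := by gcongr
    have k4 : 3 * b / 4 * ‖u‖ ^ 4 ≤ 3 * b / 4 * r3 ^ 4 := by gcongr
    linarith
  have hB : ∀ u : H, (∀ w, II ι G a b lam v u ≤ II ι G a b lam v w) → ⟪ι u, v⟫ ≤ 0 ∧
      a / 2 * ‖u‖ ^ 2 + b / 4 * ‖u‖ ^ 4 - lam / 2 * ‖ι u‖ ^ 2 + lam * ⟪ι u, v⟫ ≤ s0 := by
    intro u hu
    have k1 := B1_le hD ha hb hl v hu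
    have k2 := hr3 _ (hlarge u hu)
    exact ⟨k1.1, by linarith [k1.2]⟩
  obtain ⟨w, hw1, hw2, hw3⟩ := hD.W ![((innerSL ℝ v).comp ι : H →L[ℝ] ℝ),
    ((innerSL ℝ (ι u1)).comp ι : H →L[ℝ] ℝ), ((innerSL ℝ (ι u2)).comp ι : H →L[ℝ] ℝ),
    (innerSL ℝ u1 : H →L[ℝ] ℝ), (innerSL ℝ u2 : H →L[ℝ] ℝ)]
  have o0 : ⟪ι w, v⟫ = 0 := by
    have : ⟪v, ι w⟫ = 0 := hw3 0
    rwa [real_inner_comm] at this
  have o1 : ⟪ι u1, ι w⟫ = 0 := hw3 1
  have o2 : ⟪ι u2, ι w⟫ = 0 := hw3 2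
  have o3 : ⟪u1, w⟫ = 0 := hw3 3
  have o4 : ⟪u2, w⟫ = 0 := hw3 4
  have hw4 : a / 2 * ‖w‖ ^ 2 + b / 4 * ‖w‖ ^ 4 - lam / 2 * ‖ι w‖ ^ 2 ≤ s0 := by
    rw [hw1]
    have k1 : a / 2 * ‖w‖ ^ 2 ≤ a / 2 * κ ^ 2 := by gcongr
    have k2 : b / 4 * ‖w‖ ^ 4 ≤ b / 4 * κ ^ 4 := by gcongr
    linarith
  refine ⟨fun t => Real.sqrt (1 - 2 * t) • u1 + Real.sqrt (1 - |2 * t - 1|) • w +
    Real.sqrt (2 * t - 1) • u2, by fun_prop, ?_, ?_, ?_⟩
  · norm_num [Real.sqrt_eq_zero_of_nonpos]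
  · norm_num [Real.sqrt_eq_zero_of_nonpos]
  · intro t ht
    dsimp only
    rcases le_total (2 * t) 1 with h | h
    · have e1 : Real.sqrt (2 * t - 1) = 0 := Real.sqrt_eq_zero_of_nonpos (by linarith)
      rw [e1, zero_smul, add_zero]
      apply arc hD ha hb hl v (hB u1 h1).1 (hB u1 h1).2 hw4 o3 o1 o0 (Real.sqrt_nonneg _)
      rw [Real.sq_sqrt (by linarith), abs_of_nonpos (by linarith), Real.sq_sqrt (by linarith [ht.1])]
      ring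
    · have e1 : Real.sqrt (1 - 2 * t) = 0 := Real.sqrt_eq_zero_of_nonpos (by linarith)
      rw [e1, zero_smul, zero_add, add_comm]
      apply arc hD ha hb hl v (hB u2 h2).1 (hB u2 h2).2 hw4 o4 o2 o0 (Real.sqrt_nonneg _)
      rw [Real.sq_sqrt (by linarith), abs_of_nonneg (by linarith), Real.sq_sqrt (by linarith [ht.2])]
      ring

/-- The third solution. -/
theorem third (hD : Dat ι G g p C0 C1 κ) (ha : 0 ≤ a) (hb : 0 < b) (hl : 0 < lam) (v : L)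
    {r2 : ℝ} (h0 : 0 ≤ r2) (hr2 : ∀ r, r2 ≤ r → 2 * C1 * r ^ (p - 2) + 1 ≤ b * r ^ 2)
    {s0 : ℝ} (hs0 : s0 ≤ -(a / 2 * r2 ^ 2 + 3 * b / 4 * r2 ^ 4) - 3) {u1 u2 : H} (hne : u1 ≠ u2)
    (h1 : ∀ w, II ι G a b lam v u1 ≤ II ι G a b lam v w)
    (h2 : ∀ w, II ι G a b lam v u2 ≤ II ι G a b lam v w)
    (hPV : s0 ∈ PV (II ι G a b lam v) u1 u2) :
    ∃ u3 : H, u3 ≠ u1 ∧ u3 ≠ u2 ∧ DI ι g a b lam v u3 = 0 := by
  have hcI := II_continuous (a := a) (b := b) (lam := lam) hD ha hb.le hl.le v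
  have hcD := DI_continuous (a := a) (b := b) (lam := lam) hD ha hb.le hl.le v
  obtain ⟨m, hm⟩ : ∃ m, m = II ι G a b lam v u1 := ⟨_, rfl⟩
  have hm2 : II ι G a b lam v u2 = m := by
    rw [hm]; exact le_antisymm (h2 u1) (h1 u2)
  have hmin : ∀ w, m ≤ II ι G a b lam v w := fun w => hm ▸ h1 w
  have hbd : ∀ s ∈ PV (II ι G a b lam v) u1 u2, m ≤ s := by
    rintro s ⟨γ, -, hγ0, -, hγ⟩
    have := hγ 0 ⟨le_rfl, zero_le_one⟩
    rw [hγ0] at this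
    rw [hm]; exact this
  have hBdd : BddBelow (PV (II ι G a b lam v) u1 u2) := ⟨m, hbd⟩
  obtain ⟨c, hc⟩ : ∃ c, c = sInf (PV (II ι G a b lam v) u1 u2) := ⟨_, rfl⟩
  have hcs : c ≤ s0 := by rw [hc]; exact csInf_le hBdd hPV
  have hmc : m ≤ c := by rw [hc]; exact le_csInf ⟨s0, hPV⟩ hbd
  rcases eq_or_lt_of_le hmc with hmc' | hmc'
  · -- minimizers on a sphere
    obtain ⟨ρ, hρ⟩ : ∃ ρ, ρ = ‖u1 - u2‖ / 2 := ⟨_, rfl⟩
    have hρ0 : 0 < ρ := by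
      rw [hρ]
      have := norm_pos_iff.2 (sub_ne_zero.2 hne)
      positivity
    have hex : ∀ k : ℕ, ∃ z : H, ‖z - u1‖ = ρ ∧ II ι G a b lam v z ≤ m + 1 / ((k:ℝ) + 1) := by
      intro k
      have hpos : (0:ℝ) < 1 / ((k:ℝ) + 1) := by positivity
      obtain ⟨s, ⟨γ, hγc, hγ0, hγ1, hγ⟩, hs⟩ := exists_lt_of_csInf_lt ⟨s0, hPV⟩
        (show sInf (PV (II ι G a b lam v) u1 u2) < m + 1 / ((k:ℝ) + 1) by
          rw [← hc, ← hmc']; linarith)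
      have hcn : ContinuousOn (fun t => ‖γ t - u1‖) (Icc (0:ℝ) 1) := by
        have : Continuous fun t => ‖γ t - u1‖ := by fun_prop
        exact this.continuousOn
      have hiv := intermediate_value_Icc zero_le_one hcn
      have hmem : ρ ∈ Icc (‖γ 0 - u1‖) (‖γ 1 - u1‖) := by
        rw [hγ0, hγ1, sub_self, norm_zero]
        refine ⟨hρ0.le, ?_⟩
        rw [norm_sub_rev, hρ]
        have := norm_nonneg (u1 - u2)
        linarith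
      obtain ⟨t, ht, hte⟩ := hiv hmem
      exact ⟨γ t, hte, (hγ t ht).trans hs.le⟩
    choose z hz1 hz2 using hex
    have hlim : Tendsto (fun k => II ι G a b lam v (z k)) atTop (𝓝 m) := by
      have h3 : Tendsto (fun k : ℕ => m + 1 / ((k:ℝ) + 1)) atTop (𝓝 m) := by
        simpa using (tendsto_one_div_add_atTop_nhds_zero_nat (𝕜 := ℝ)).const_add m
      exact tendsto_of_tendsto_of_tendsto_of_le_of_le tendsto_const_nhds h3
        (fun k => hmin _) hz2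
    obtain ⟨ns, y, hns, hy, -, hy2⟩ := min_seq hD ha hb hl.le v h0 hr2 hmin (by linarith) hlim
    have hyn : ‖y - u1‖ = ρ := by
      have h3 : Tendsto (fun k => ‖z (ns k) - u1‖) atTop (𝓝 ‖y - u1‖) := (hy.sub_const u1).norm
      have h4 : Tendsto (fun k => ‖z (ns k) - u1‖) atTop (𝓝 ρ) := by
        simp only [hz1]
        exact tendsto_const_nhds
      exact tendsto_nhds_unique h3 h4
    refine ⟨y, ?_, ?_, hy2⟩
    · rintro rfl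
      rw [sub_self, norm_zero] at hyn
      linarith
    · rintro rfl
      rw [norm_sub_rev, hρ] at hyn
      have := norm_pos_iff.2 (sub_ne_zero.2 hne)
      linarith
  · -- mountain pass
    obtain ⟨R, hR0, hR⟩ := coer (a := a) (b := b) (lam := lam) hD ha hb hl.le ‖v‖ (c + 1)
    obtain ⟨τ, hτ, hstep⟩ := step (a := a) (b := b) (lam := lam) hD ha hb.le hl.le v R
    have hclaim : ∀ k : ℕ, ∃ u : H, |II ι G a b lam v u - c| ≤ 1 / ((k:ℝ) + 1) ∧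
        ‖DI ι g a b lam v u‖ ≤ 1 / ((k:ℝ) + 1) := by
      intro k
      obtain ⟨ε, hε⟩ : ∃ ε, ε = 1 / ((k:ℝ) + 1) := ⟨_, rfl⟩
      have hε0 : 0 < ε := by rw [hε]; positivity
      have hε1 : ε ≤ 1 := by
        rw [hε, div_le_one (by positivity)]
        have : (0:ℝ) ≤ k := Nat.cast_nonneg k
        linarith
      rw [← hε]
      by_contra hcon
      push Not at hcon
      obtain ⟨η, hη⟩ : ∃ η, η = min ε (τ * ε ^ 2 / 8) := ⟨_, rfl⟩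
      have hη0 : 0 < η := by rw [hη]; positivity
      have hη1 : η ≤ ε := by rw [hη]; exact min_le_left _ _
      have hη2 : η ≤ τ * ε ^ 2 / 8 := by rw [hη]; exact min_le_right _ _
      obtain ⟨s, ⟨γ, hγc, hγ0, hγ1, hγ⟩, hs⟩ := exists_lt_of_csInf_lt ⟨s0, hPV⟩
        (show sInf (PV (II ι G a b lam v) u1 u2) < c + η by rw [← hc]; linarith)
      have hnew : c - η ∈ PV (II ι G a b lam v) u1 u2 := by
        refine ⟨fun t => γ t - τ • DI ι g a b lam v (γ t),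
          hγc.sub ((hcD.comp hγc).const_smul τ), ?_, ?_, ?_⟩
        · dsimp only
          rw [hγ0, DI_eq_zero hD ha hb.le hl.le v h1, smul_zero, sub_zero]
        · dsimp only
          rw [hγ1, DI_eq_zero hD ha hb.le hl.le v h2, smul_zero, sub_zero]
        · intro t ht
          dsimp only
          have k1 : II ι G a b lam v (γ t) ≤ c + η := (hγ t ht).trans hs.le
          have k2 : ‖γ t‖ ≤ R := hR v le_rfl _ (by linarith)
          have k3 := hstep _ k2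
          have k4 : 0 ≤ τ / 2 * ‖DI ι g a b lam v (γ t)‖ ^ 2 := by positivity
          rcases le_or_gt (II ι G a b lam v (γ t)) (c - η) with k5 | k5
          · linarith
          · have k6 := hcon (γ t) (by rw [abs_le]; constructor <;> linarith)
            have k7 : ε ^ 2 ≤ ‖DI ι g a b lam v (γ t)‖ ^ 2 := pow_le_pow_left₀ hε0.le k6.le 2
            have k8 : τ / 2 * ε ^ 2 ≤ τ / 2 * ‖DI ι g a b lam v (γ t)‖ ^ 2 := by gcongr
            linarith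
      have := csInf_le hBdd hnew
      rw [← hc] at this
      linarith
    choose z hz1 hz2 using hclaim
    have hk0 : Tendsto (fun k : ℕ => 1 / ((k:ℝ) + 1)) atTop (𝓝 0) :=
      tendsto_one_div_add_atTop_nhds_zero_nat (𝕜 := ℝ)
    have hd : Tendsto (fun k => DI ι g a b lam v (z k)) atTop (𝓝 0) := squeeze_zero_norm hz2 hk0
    have hk1 : ∀ k : ℕ, 1 / ((k:ℝ) + 1) ≤ 1 := by
      intro k
      rw [div_le_one (by positivity)]
      have : (0:ℝ) ≤ k := Nat.cast_nonneg k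
      linarith
    have hI : ∀ k, II ι G a b lam v (z k) ≤ -(a / 2 * r2 ^ 2 + 3 * b / 4 * r2 ^ 4) - 1 := by
      intro k
      have k1 := (abs_le.1 (hz1 k)).2
      have k2 := hk1 k
      linarith
    have hRk : ∀ k, ‖z k‖ ≤ R := by
      intro k
      apply hR v le_rfl
      have k1 := (abs_le.1 (hz1 k)).2
      have k2 := hk1 k
      linarith
    obtain ⟨ns, y, hns, hy⟩ := PS hD ha hb hl.le v h0 hr2 hRk hd hI
    have hyd : DI ι g a b lam v y = 0 :=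
      tendsto_nhds_unique ((hcD.tendsto y).comp hy) (hd.comp hns.tendsto_atTop)
    have hyc : II ι G a b lam v y = c := by
      have k1 : Tendsto (fun k => II ι G a b lam v (z (ns k))) atTop (𝓝 (II ι G a b lam v y)) :=
        (hcI.tendsto y).comp hy
      have k2 : Tendsto (fun k => II ι G a b lam v (z k)) atTop (𝓝 c) := by
        rw [tendsto_iff_norm_sub_tendsto_zero]
        exact squeeze_zero (fun k => norm_nonneg _) (fun k => hz1 k) hk0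
      exact tendsto_nhds_unique k1 (k2.comp hns.tendsto_atTop)
    refine ⟨y, ?_, ?_, hyd⟩
    · rintro rfl
      rw [← hm] at hyc
      linarith
    · rintro rfl
      rw [hm2] at hyc
      linarith

/-- The abstract three solutions theorem. -/
theorem abs_main (hD : Dat ι G g p C0 C1 κ) (ha : 0 ≤ a) (hb : 0 < b) :
    ∃ lam0 : ℝ, 0 < lam0 ∧ ∀ lam : ℝ, lam0 < lam → ∀ C : Set L, Convex ℝ C →
      range ι ⊆ closure C → ∃ v ∈ C, ∃ u1 u2 u3 : H, u1 ≠ u2 ∧ u3 ≠ u1 ∧ u3 ≠ u2 ∧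
        (∀ w, II ι G a b lam v u1 ≤ II ι G a b lam v w) ∧
        (∀ w, II ι G a b lam v u2 ≤ II ι G a b lam v w) ∧
        DI ι g a b lam v u1 = 0 ∧ DI ι g a b lam v u2 = 0 ∧ DI ι g a b lam v u3 = 0 := by
  have hp2 := hD.hp2
  have hp4 := hD.hp4
  have hC0 := hD.hC0
  obtain ⟨r2, hr21, hr2⟩ := grow hp2 hp4 hb (2 * C1) 1 0 0
  have hr2' : ∀ r, r2 ≤ r → 2 * C1 * r ^ (p - 2) + 1 ≤ b * r ^ 2 := by
    intro r hr
    have hr0 : 0 < r := by linarith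
    have h1 := hr2 r hr
    have h2 : r ^ p = r ^ (p - 2) * r ^ 2 := by
      rw [← Real.rpow_natCast r 2, ← Real.rpow_add hr0]
      congr 1
      push_cast
      ring
    rw [h2] at h1
    have h3 : (2 * C1 * r ^ (p - 2) + 1) * r ^ 2 ≤ (b * r ^ 2) * r ^ 2 := by nlinarith
    exact le_of_mul_le_mul_right h3 (by positivity)
  obtain ⟨s0, hs0⟩ : ∃ s0, s0 = -(a / 2 * r2 ^ 2 + 3 * b / 4 * r2 ^ 4) - 3 := ⟨_, rfl⟩
  obtain ⟨r3, hr31, hr3⟩ := grow hp2 hp4 (show 0 < b / 4 by positivity) (p / 2 * C0) 0 0 (-s0)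
  obtain ⟨r4, hr41, hr4⟩ := grow hp2 hp4 (show 0 < b / 4 by positivity) C0 0 0 0
  obtain ⟨j0, hj0⟩ : ∃ j0, j0 = C0 * r4 ^ p := ⟨_, rfl⟩
  have hj00 : 0 ≤ j0 := by rw [hj0]; positivity
  have hj : ∀ u : H, -j0 ≤ a / 2 * ‖u‖ ^ 2 + b / 4 * ‖u‖ ^ 4 - G u := by
    intro u
    have h1 := hD.GC u
    have h2 : 0 ≤ a / 2 * ‖u‖ ^ 2 := by positivity
    rcases le_or_gt r4 ‖u‖ with h | h
    · have h3 := hr4 _ h
      linarith
    · have h3 : C0 * ‖u‖ ^ p ≤ C0 * r4 ^ p := by gcongr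
      have h4 : 0 ≤ b / 4 * ‖u‖ ^ 4 := by positivity
      rw [hj0]
      linarith
  obtain ⟨Q, hQ⟩ : ∃ Q, Q = a / 2 * κ ^ 2 + b / 4 * κ ^ 4 := ⟨_, rfl⟩
  have hQ0 : 0 ≤ Q := by
    rw [hQ]
    have := hD.κ0
    positivity
  have hr3p : 0 ≤ a / 2 * r3 ^ 2 + 3 * b / 4 * r3 ^ 4 := by positivity
  have hr2p : 0 ≤ a / 2 * r2 ^ 2 + 3 * b / 4 * r2 ^ 4 := by positivity
  refine ⟨2 * (Q + j0 + (a / 2 * r2 ^ 2 + 3 * b / 4 * r2 ^ 4) +
    (a / 2 * r3 ^ 2 + 3 * b / 4 * r3 ^ 4) + 4), by positivity, fun lam hlam C hC hCd => ?_⟩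
  have hl : 0 < lam := by linarith
  obtain ⟨v, hv, u1, u2, hne, h1, h2⟩ := two_min hD ha hb hl (by linarith) hr2'
    (by rw [← hQ]; linarith) hj (by rw [← hQ]; linarith) hC hCd
  have hPV := path hD ha hb hl v (s0 := s0) (r3 := r3)
    (fun r hr => by have := hr3 r hr; linarith) (by rw [← hQ]; linarith)
    (by rw [← hQ, hs0]; linarith) h1 h2
  obtain ⟨u3, h31, h32, h33⟩ := third hD ha hb hl v (by linarith) hr2' hs0.le hne h1 h2 hPV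
  exact ⟨v, hv, u1, u2, u3, hne, h31, h32, h1, h2, DI_eq_zero hD ha hb.le hl.le v h1,
    DI_eq_zero hD ha hb.le hl.le v h2, h33⟩

end Pool.Agent.R217.KM
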