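import Pool.Agent.R217.HS.Cpt2
import Pool.Agent.R217.HS.Sob
import Pool.Agent.R217.HS.Der

set_option autoImplicit false
set_option linter.unusedSectionVars false
set_option linter.unusedVariables false

open MeasureTheory Filter Topology
open scoped ContDiff ENNReal NNReal RealInnerProductSpace

namespace Pool.Agent.R217.KM

open Pool.Agent.R217.BN (E cexp sobS H01)
open Pool.Agent.R217.HS

variable {n : ℕ}

/-- Pairs `(φ, ∇φ)`, `φ` a test function in `Ω`. -/
noncomputable def TO {n : ℕ} (Ω : Set (E n)) : Submodule ℝ (XX n) where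
  carrier := {p | ∃ φ : E n → ℝ, Tst φ ∧ tsupport φ ⊆ Ω ∧ (p.fst : E n → ℝ) =ᵐ[volume] φ ∧
    (p.snd : E n → E n) =ᵐ[volume] gradient φ}
  add_mem' := by
    rintro a b ⟨φ, hφ, hφs, h1, h2⟩ ⟨ψ, hψ, hψs, h3, h4⟩
    refine ⟨fun x => φ x + ψ x, hφ.add hψ,
      (tsupport_add φ ψ).trans (Set.union_subset hφs hψs), ?_, ?_⟩
    · rw [WithLp.add_fst]
      filter_upwards [Lp.coeFn_add a.fst b.fst, h1, h3] with x e1 e2 e3
      rw [e1, Pi.add_apply, e2, e3]
    · rw [WithLp.add_snd]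
      filter_upwards [Lp.coeFn_add a.snd b.snd, h2, h4] with x e1 e2 e3
      rw [e1, Pi.add_apply, e2, e3, gradient_add (hφ.diff x) (hψ.diff x)]
  zero_mem' := by
    refine ⟨fun _ => 0, ⟨contDiff_const, HasCompactSupport.zero⟩, ?_, ?_, ?_⟩
    · have : tsupport (fun _ : E n => (0:ℝ)) = ∅ := by
        rw [tsupport_eq_empty_iff]; rfl
      rw [this]; exact Set.empty_subset _
    · rw [WithLp.zero_fst]
      filter_upwards [Lp.coeFn_zero ℝ 2 (volume : Measure (E n))] with x e1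
      rw [e1, Pi.zero_apply]
    · rw [WithLp.zero_snd]
      filter_upwards [Lp.coeFn_zero (E n) 2 (volume : Measure (E n))] with x e1
      rw [e1, Pi.zero_apply, gradient]
      simp
  smul_mem' := by
    rintro c a ⟨φ, hφ, hφs, h1, h2⟩
    refine ⟨fun x => c * φ x, hφ.smul c, ?_, ?_, ?_⟩
    · refine Set.Subset.trans (closure_mono ?_) hφs
      intro x hx
      rw [Function.mem_support] at hx ⊢
      exact right_ne_zero_of_mul hx
    · rw [WithLp.smul_fst]
      filter_upwards [Lp.coeFn_smul c a.fst, h1] with x e1 e2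
      rw [e1, Pi.smul_apply, e2, smul_eq_mul]
    · rw [WithLp.smul_snd]
      filter_upwards [Lp.coeFn_smul c a.snd, h2] with x e1 e2
      rw [e1, Pi.smul_apply, e2, gradient_smul c (hφ.diff x)]

lemma h01_of_mem {Ω : Set (E n)} {p : XX n} (hp : p ∈ (TO Ω).topologicalClosure) :
    H01 Ω (p.fst : E n → ℝ) (p.snd : E n → E n) := by
  have hp' : p ∈ closure (TO Ω : Set (XX n)) := hp
  rw [mem_closure_iff_seq_limit] at hp'
  obtain ⟨q, hq, hqp⟩ := hp'
  have hq' : ∀ k, ∃ φ : E n → ℝ, Tst φ ∧ tsupport φ ⊆ Ω ∧ ((q k).fst : E n → ℝ) =ᵐ[volume] φ ∧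
    ((q k).snd : E n → E n) =ᵐ[volume] gradient φ := fun k => hq k
  choose φ hφ hφs h1 h2 using hq'
  have c1 : Tendsto (fun k => (q k).fst) atTop (𝓝 p.fst) :=
    ((WithLp.continuous_fst 2 _ _).tendsto p).comp hqp
  have c2 : Tendsto (fun k => (q k).snd) atTop (𝓝 p.snd) :=
    ((WithLp.continuous_snd 2 _ _).tendsto p).comp hqp
  rw [Lp.tendsto_Lp_iff_tendsto_eLpNorm'] at c1 c2
  refine ⟨Lp.memLp _, Lp.memLp _, φ, fun k => ⟨(hφ k).1, (hφ k).2, hφs k⟩, ?_, ?_⟩
  · refine c1.congr fun k => eLpNorm_congr_ae ?_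
    filter_upwards [h1 k] with x hx
    rw [Pi.sub_apply, hx]
  · refine c2.congr fun k => eLpNorm_congr_ae ?_
    filter_upwards [h2 k] with x hx
    rw [Pi.sub_apply, hx]

lemma mem_of_h01 {Ω : Set (E n)} {u : E n → ℝ} {G : E n → E n} (h : H01 Ω u G) :
    (WithLp.toLp 2 (h.1.toLp u, h.2.1.toLp G) : XX n) ∈ (TO Ω).topologicalClosure := by
  obtain ⟨hu, hG, φ, hφ, h1, h2⟩ := h
  have hT : ∀ k, Tst (φ k) := fun k => ⟨(hφ k).1, (hφ k).2.1⟩
  have hL1 : LTo volume φ u := h1
  have hL2 : LTo volume (fun k => gradient (φ k)) G := h2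
  have c1 := hL1.toLp (fun k => (hT k).memLp 2) hu
  have c2 := hL2.toLp (fun k => (hT k).memLp_grad 2) hG
  change _ ∈ closure (TO Ω : Set (XX n))
  rw [mem_closure_iff_seq_limit]
  refine ⟨fun k => WithLp.toLp 2 (((hT k).memLp 2).toLp (φ k),
    ((hT k).memLp_grad 2).toLp (gradient (φ k))), fun k => ?_, ?_⟩
  · exact ⟨φ k, hT k, (hφ k).2.2, MemLp.coeFn_toLp ((hT k).memLp 2),
      MemLp.coeFn_toLp ((hT k).memLp_grad 2)⟩
  · exact ((WithLp.prod_continuous_toLp 2 _ _).tendsto _).comp (c1.prodMk_nhds c2)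

lemma h01_isH1 {Ω : Set (E n)} {u : E n → ℝ} {G : E n → E n} (h : H01 Ω u G) : IsH1 u G := by
  obtain ⟨hu, hG, φ, hφ, h1, h2⟩ := h
  exact ⟨hu, hG, φ, fun k => ⟨(hφ k).1, (hφ k).2.1⟩, h1, h2⟩

/-- A limit in `L²` of functions vanishing outside `Ω` vanishes outside `Ω`. -/
lemma ae_zero_of_lim {F : Type*} [NormedAddCommGroup F] {Ω : Set (E n)} (hΩ : MeasurableSet Ω)
    {f : ℕ → E n → F} {g : E n → F} (hf : ∀ k x, x ∉ Ω → f k x = 0)
    (hg : AEStronglyMeasurable g volume)
    (h : Tendsto (fun k => eLpNorm (fun x => f k x - g x) 2 volume) atTop (𝓝 0)) :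
    ∀ᵐ x ∂(volume : Measure (E n)), x ∉ Ω → g x = 0 := by
  have h1 : ∀ k, eLpNorm g 2 (volume.restrict Ωᶜ) ≤ eLpNorm (fun x => f k x - g x) 2 volume := by
    intro k
    calc eLpNorm g 2 (volume.restrict Ωᶜ) = eLpNorm (fun x => f k x - g x) 2
          (volume.restrict Ωᶜ) := by
          rw [← eLpNorm_neg]
          apply eLpNorm_congr_ae
          filter_upwards [ae_restrict_mem hΩ.compl] with x hx
          rw [hf k x hx, Pi.neg_apply, zero_sub]
      _ ≤ _ := eLpNorm_mono_measure _ Measure.restrict_le_self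
  have h2 : eLpNorm g 2 (volume.restrict Ωᶜ) = 0 :=
    le_antisymm (ge_of_tendsto' h h1) zero_le
  rw [eLpNorm_eq_zero_iff hg.restrict (by norm_num)] at h2
  exact (ae_restrict_iff' hΩ.compl).1 h2

lemma h01_zero {Ω : Set (E n)} (hΩ : MeasurableSet Ω) {u : E n → ℝ} {G : E n → E n}
    (h : H01 Ω u G) : (∀ᵐ x ∂(volume : Measure (E n)), x ∉ Ω → u x = 0) ∧
      ∀ᵐ x ∂(volume : Measure (E n)), x ∉ Ω → G x = 0 := by
  obtain ⟨hu, hG, φ, hφ, h1, h2⟩ := h
  refine ⟨ae_zero_of_lim hΩ ?_ hu.1 h1, ae_zero_of_lim hΩ ?_ hG.1 h2⟩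
  · intro k x hx
    by_contra hc
    exact hx ((hφ k).2.2 (subset_tsupport _ hc))
  · intro k x hx
    by_contra hc
    have h3 : fderiv ℝ (φ k) x ≠ 0 := by
      intro h0
      apply hc
      rw [gradient, h0, map_zero]
    have h4 : x ∈ tsupport (φ k) := by
      apply support_fderiv_subset ℝ
      exact h3
    exact hx ((hφ k).2.2 h4)

/-- Integrals over `Ω` are integrals over the space. -/
lemma set_eq {Ω : Set (E n)} (hΩ : MeasurableSet Ω) {f : E n → ℝ}
    (h : ∀ᵐ x ∂(volume : Measure (E n)), x ∉ Ω → f x = 0) : ∫ x in Ω, f x = ∫ x, f x := by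
  rw [← integral_indicator hΩ]
  apply integral_congr_ae
  filter_upwards [h] with x hx
  by_cases hxΩ : x ∈ Ω
  · rw [Set.indicator_of_mem hxΩ]
  · rw [Set.indicator_of_notMem hxΩ, hx hxΩ]

/-- The Sobolev inequality. -/
lemma sob (hn : 3 ≤ n) {u : E n → ℝ} {G : E n → E n} (h : IsH1 u G) :
    Integrable (fun x => |u x| ^ cexp n) ∧
      ∫ x, |u x| ^ cexp n ≤ (Real.sqrt (1 / sobS n) * Real.sqrt (∫ x, ‖G x‖ ^ 2)) ^ cexp n := by
  have h1 := h.sobolev' hn
  refine ⟨h1.1, h1.2.trans (le_of_eq ?_)⟩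
  have hS := BN.sobS_pos hn
  have hA : 0 ≤ ∫ x, ‖G x‖ ^ 2 := integral_nonneg fun x => by positivity
  rw [← Real.sqrt_mul (by positivity), Real.sqrt_eq_rpow, ← Real.rpow_mul (by positivity)]
  congr 1
  · ring
  · ring

/-- The Poincaré inequality. -/
lemma poinc (hn : 3 ≤ n) {Ω : Set (E n)} (hΩ : MeasurableSet Ω) (hb : Bornology.IsBounded Ω)
    {u : E n → ℝ} {G : E n → E n} (h : H01 Ω u G) :
    ∫ x, u x ^ 2 ≤ (volume.real Ω + Real.sqrt (1 / sobS n) ^ cexp n) * ∫ x, ‖G x‖ ^ 2 := by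
  have hH := h01_isH1 h
  have hs := sob hn hH
  have hz := (h01_zero hΩ h).1
  have hp : 2 < cexp n := two_lt_cexp hn
  have hΩf : volume Ω < ⊤ := hb.measure_lt_top
  obtain ⟨D, hD⟩ : ∃ D, D = Real.sqrt (∫ x, ‖G x‖ ^ 2) := ⟨_, rfl⟩
  have hD0 : 0 ≤ D := by rw [hD]; positivity
  have hD2 : ∫ x, ‖G x‖ ^ 2 = D ^ 2 := by
    rw [hD, Real.sq_sqrt (integral_nonneg fun x => by positivity)]
  obtain ⟨K, hK⟩ : ∃ K, K = Real.sqrt (1 / sobS n) := ⟨_, rfl⟩
  have hK0 : 0 ≤ K := by rw [hK]; positivity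
  rw [← hK, ← hD] at hs
  rw [hD2, ← hK]
  have key : ∀ t : ℝ, 0 < t → ∫ x, u x ^ 2 ≤
      t ^ 2 * volume.real Ω + t ^ (2 - cexp n) * (K * D) ^ cexp n := by
    intro t ht
    have h1 : ∀ᵐ x ∂(volume : Measure (E n)), u x ^ 2 ≤
        Ω.indicator (fun _ => t ^ 2) x + t ^ (2 - cexp n) * |u x| ^ cexp n := by
      filter_upwards [hz] with x hx
      by_cases hxΩ : x ∈ Ω
      · rw [Set.indicator_of_mem hxΩ]
        rcases le_or_gt |u x| t with h2 | h2
        · have h3 : u x ^ 2 ≤ t ^ 2 := by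
            rw [← sq_abs]
            exact pow_le_pow_left₀ (abs_nonneg _) h2 2
          have h4 : 0 ≤ t ^ (2 - cexp n) * |u x| ^ cexp n := by positivity
          linarith
        · have h3 : u x ^ 2 = |u x| ^ (2 - cexp n) * |u x| ^ cexp n := by
            rw [← Real.rpow_add (ht.trans h2), sub_add_cancel, ← sq_abs, ← Real.rpow_natCast]
            norm_num
          have h4 : |u x| ^ (2 - cexp n) ≤ t ^ (2 - cexp n) :=
            Real.rpow_le_rpow_of_nonpos ht h2.le (by linarith)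
          have h5 : |u x| ^ (2 - cexp n) * |u x| ^ cexp n ≤ t ^ (2 - cexp n) * |u x| ^ cexp n := by
            gcongr
          have h6 : 0 ≤ t ^ 2 := by positivity
          linarith
      · rw [Set.indicator_of_notMem hxΩ, hx hxΩ, abs_zero, Real.zero_rpow (by linarith)]
        simp
    have hi1 : Integrable (Ω.indicator (fun _ : E n => t ^ 2)) := by
      rw [integrable_indicator_iff hΩ]
      exact integrableOn_const (hs := hΩf.ne)
    have hi2 : Integrable (fun x => t ^ (2 - cexp n) * |u x| ^ cexp n) := hs.1.const_mul _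
    have h2 := integral_mono_ae (hH.int_sq) (hi1.add hi2) h1
    have h3 : ∫ x, (Ω.indicator (fun _ : E n => t ^ 2) + fun x => t ^ (2 - cexp n) * |u x| ^ cexp n) x
        = t ^ 2 * volume.real Ω + t ^ (2 - cexp n) * ∫ x, |u x| ^ cexp n := by
      have h4 : ∀ x, (Ω.indicator (fun _ : E n => t ^ 2) +
          fun x => t ^ (2 - cexp n) * |u x| ^ cexp n) x = Ω.indicator (fun _ : E n => t ^ 2) x +
            t ^ (2 - cexp n) * |u x| ^ cexp n := fun x => rfl
      simp only [h4]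
      rw [integral_add hi1 hi2, integral_const_mul, integral_indicator hΩ, setIntegral_const,
        smul_eq_mul, mul_comm]
    rw [h3] at h2
    have h5 : t ^ (2 - cexp n) * ∫ x, |u x| ^ cexp n ≤ t ^ (2 - cexp n) * (K * D) ^ cexp n := by
      gcongr
      exact hs.2
    linarith
  rcases eq_or_lt_of_le hD0 with h0 | h0
  · rw [← h0] at key ⊢
    have h1 : ∀ t : ℝ, 0 < t → ∫ x, u x ^ 2 ≤ t ^ 2 * volume.real Ω := by
      intro t ht
      have := key t ht
      rw [mul_zero, Real.zero_rpow (by linarith), mul_zero, add_zero] at this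
      exact this
    have h2 : Tendsto (fun t : ℝ => t ^ 2 * volume.real Ω) (𝓝[>] 0) (𝓝 0) := by
      have h3 : Continuous fun t : ℝ => t ^ 2 * volume.real Ω := by fun_prop
      have h4 := (h3.tendsto 0).mono_left (nhdsWithin_le_nhds (s := Set.Ioi 0))
      simpa using h4
    have h3 : ∫ x, u x ^ 2 ≤ 0 := by
      refine ge_of_tendsto h2 ?_
      filter_upwards [self_mem_nhdsWithin] with t ht
      exact h1 t ht
    simpa using h3
  · have h1 := key D h0
    have h2 : D ^ (2 - cexp n) * (K * D) ^ cexp n = K ^ cexp n * D ^ 2 := by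
      rw [Real.mul_rpow hK0 hD0, mul_left_comm, ← Real.rpow_add h0, sub_add_cancel,
        ← Real.rpow_natCast D 2]
      norm_num
    rw [h2] at h1
    linarith

/-- Hölder's inequality for three functions. -/
lemma holder3 {α : Type*} [MeasurableSpace α] {μ : Measure α} {p : ℝ} (hp : 2 < p)
    {u x h : α → ℝ} (hu : Integrable (fun y => |u y| ^ p) μ) (hx : Integrable (fun y => |x y| ^ p) μ)
    (hh : Integrable (fun y => |h y| ^ p) μ) (mu : AEStronglyMeasurable u μ)
    (mx : AEStronglyMeasurable x μ) (mh : AEStronglyMeasurable h μ) :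
    Integrable (fun y => |u y| ^ (p - 2) * |x y| * |h y|) μ ∧
    ∀ A B C : ℝ, 0 ≤ A → 0 ≤ B → 0 ≤ C → ∫ y, |u y| ^ p ∂μ ≤ A ^ p → ∫ y, |x y| ^ p ∂μ ≤ B ^ p →
      ∫ y, |h y| ^ p ∂μ ≤ C ^ p → ∫ y, |u y| ^ (p - 2) * |x y| * |h y| ∂μ ≤ A ^ (p - 2) * B * C := by
  have hp0 : 0 < p := by linarith
  -- pointwise bound
  have hpt : ∀ (A B C : ℝ), 0 < A → 0 < B → 0 < C → ∀ y, |u y| ^ (p - 2) * |x y| * |h y| ≤
      (A ^ (p - 2) * B * C) * ((p - 2) / p * (A ^ p)⁻¹ * |u y| ^ p +
        1 / p * (B ^ p)⁻¹ * |x y| ^ p + 1 / p * (C ^ p)⁻¹ * |h y| ^ p) := by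
    intro A B C hA hB hC y
    have h1 := Real.geom_mean_le_arith_mean3_weighted (w₁ := (p - 2) / p) (w₂ := 1 / p)
      (w₃ := 1 / p) (p₁ := (|u y| / A) ^ p) (p₂ := (|x y| / B) ^ p) (p₃ := (|h y| / C) ^ p)
      (by apply div_nonneg <;> linarith) (by positivity) (by positivity) (by positivity)
      (by positivity) (by positivity) (by field_simp; ring)
    rw [← Real.rpow_mul (by positivity), ← Real.rpow_mul (by positivity),
      ← Real.rpow_mul (by positivity), show p * ((p - 2) / p) = p - 2 by field_simp,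
      show p * (1 / p) = 1 by field_simp, Real.rpow_one, Real.rpow_one,
      Real.div_rpow (abs_nonneg _) hA.le, Real.div_rpow (abs_nonneg _) hA.le,
      Real.div_rpow (abs_nonneg _) hB.le, Real.div_rpow (abs_nonneg _) hC.le] at h1
    have hAp : 0 < A ^ (p - 2) := by positivity
    have e : |u y| ^ (p - 2) * |x y| * |h y| = (A ^ (p - 2) * B * C) *
        (|u y| ^ (p - 2) / A ^ (p - 2) * (|x y| / B) * (|h y| / C)) := by
      field_simp
    rw [e]
    apply mul_le_mul_of_nonneg_left _ (by positivity)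
    refine h1.trans (le_of_eq ?_)
    ring
  have mm : AEStronglyMeasurable (fun y => |u y| ^ (p - 2) * |x y| * |h y|) μ := by
    have m1 : AEMeasurable (fun y => |u y| ^ (p - 2)) μ := (mu.aemeasurable.abs).pow_const _
    exact ((m1.mul mx.aemeasurable.abs).mul mh.aemeasurable.abs).aestronglyMeasurable
  have hint : ∀ (A B C : ℝ), Integrable (fun y => (A ^ (p - 2) * B * C) *
      ((p - 2) / p * (A ^ p)⁻¹ * |u y| ^ p +
        1 / p * (B ^ p)⁻¹ * |x y| ^ p + 1 / p * (C ^ p)⁻¹ * |h y| ^ p)) μ := fun A B C =>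
    (((hu.const_mul _).add (hx.const_mul _)).add (hh.const_mul _)).const_mul _
  have hI : Integrable (fun y => |u y| ^ (p - 2) * |x y| * |h y|) μ := by
    refine (hint 1 1 1).mono' mm (Eventually.of_forall fun y => ?_)
    rw [Real.norm_eq_abs, abs_of_nonneg (by positivity)]
    exact hpt 1 1 1 one_pos one_pos one_pos y
  refine ⟨hI, ?_⟩
  have hstrict : ∀ A B C : ℝ, 0 < A → 0 < B → 0 < C → ∫ y, |u y| ^ p ∂μ ≤ A ^ p →
      ∫ y, |x y| ^ p ∂μ ≤ B ^ p → ∫ y, |h y| ^ p ∂μ ≤ C ^ p →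
      ∫ y, |u y| ^ (p - 2) * |x y| * |h y| ∂μ ≤ A ^ (p - 2) * B * C := by
    intro A B C hA hB hC h1 h2 h3
    have h4 := integral_mono hI (hint A B C) (hpt A B C hA hB hC)
    have i1 : Integrable (fun y => (p - 2) / p * (A ^ p)⁻¹ * |u y| ^ p) μ := hu.const_mul _
    have i2 : Integrable (fun y => 1 / p * (B ^ p)⁻¹ * |x y| ^ p) μ := hx.const_mul _
    have i3 : Integrable (fun y => 1 / p * (C ^ p)⁻¹ * |h y| ^ p) μ := hh.const_mul _
    have i12 : Integrable (fun y => (p - 2) / p * (A ^ p)⁻¹ * |u y| ^ p +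
      1 / p * (B ^ p)⁻¹ * |x y| ^ p) μ := i1.add i2
    rw [integral_const_mul, integral_add i12 i3, integral_add i1 i2, integral_const_mul,
      integral_const_mul, integral_const_mul] at h4
    refine h4.trans ?_
    have hAp : 0 < A ^ p := by positivity
    have hBp : 0 < B ^ p := by positivity
    have hCp : 0 < C ^ p := by positivity
    have k1 : (p - 2) / p * (A ^ p)⁻¹ * ∫ y, |u y| ^ p ∂μ ≤ (p - 2) / p := by
      have : (p - 2) / p * (A ^ p)⁻¹ * ∫ y, |u y| ^ p ∂μ ≤ (p - 2) / p * (A ^ p)⁻¹ * A ^ p := by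
        apply mul_le_mul_of_nonneg_left h1
        have : 0 ≤ (p - 2) / p := by apply div_nonneg <;> linarith
        positivity
      refine this.trans (le_of_eq ?_)
      field_simp
    have k2 : 1 / p * (B ^ p)⁻¹ * ∫ y, |x y| ^ p ∂μ ≤ 1 / p := by
      have : 1 / p * (B ^ p)⁻¹ * ∫ y, |x y| ^ p ∂μ ≤ 1 / p * (B ^ p)⁻¹ * B ^ p := by gcongr
      refine this.trans (le_of_eq ?_)
      field_simp
    have k3 : 1 / p * (C ^ p)⁻¹ * ∫ y, |h y| ^ p ∂μ ≤ 1 / p := by
      have : 1 / p * (C ^ p)⁻¹ * ∫ y, |h y| ^ p ∂μ ≤ 1 / p * (C ^ p)⁻¹ * C ^ p := by gcongr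
      refine this.trans (le_of_eq ?_)
      field_simp
    have k4 : (p - 2) / p + 1 / p + 1 / p = 1 := by field_simp; ring
    calc _ ≤ A ^ (p - 2) * B * C * 1 := by
          apply mul_le_mul_of_nonneg_left _ (by positivity)
          linarith
      _ = _ := mul_one _
  intro A B C hA hB hC h1 h2 h3
  have hlim : Tendsto (fun ε : ℝ => (A + ε) ^ (p - 2) * (B + ε) * (C + ε)) (𝓝[>] 0)
      (𝓝 (A ^ (p - 2) * B * C)) := by
    have hc : ContinuousAt (fun ε : ℝ => (A + ε) ^ (p - 2) * (B + ε) * (C + ε)) 0 := by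
      apply ContinuousAt.mul
      · apply ContinuousAt.mul
        · apply ContinuousAt.rpow_const (by fun_prop)
          right; linarith
        · fun_prop
      · fun_prop
    have := hc.tendsto.mono_left (nhdsWithin_le_nhds (s := Set.Ioi 0))
    simpa using this
  refine ge_of_tendsto hlim ?_
  filter_upwards [self_mem_nhdsWithin] with ε hε
  have hε0 : 0 < ε := hε
  apply hstrict _ _ _ (by linarith) (by linarith) (by linarith)
  · exact h1.trans (Real.rpow_le_rpow hA (by linarith) hp0.le)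
  · exact h2.trans (Real.rpow_le_rpow hB (by linarith) hp0.le)
  · exact h3.trans (Real.rpow_le_rpow hC (by linarith) hp0.le)

/-- Elementary inequality for `|s|^(p-2) s`. -/
lemma diff_pow {p : ℝ} (hp : 2 < p) (s t : ℝ) :
    |(|s| ^ (p - 2) * s - |t| ^ (p - 2) * t)| ≤
      (p - 1) * (|s| ^ (p - 2) * |s - t| + |t| ^ (p - 2) * |s - t|) := by
  -- positive case
  have hpos : ∀ s t : ℝ, 0 ≤ t → t ≤ s →
      s ^ (p - 2) * s - t ^ (p - 2) * t ≤ (p - 1) * (s ^ (p - 2) * (s - t)) := by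
    intro s t ht hts
    rcases eq_or_lt_of_le (ht.trans hts) with h0 | h0
    · have : t = 0 := le_antisymm (by linarith) ht
      rw [← h0, this]; simp
    · have h1 := one_add_mul_self_le_rpow_one_add (s := t / s - 1) (p := p - 1)
        (by have : 0 ≤ t / s := by positivity
            linarith) (by linarith)
      rw [show 1 + (t / s - 1) = t / s by ring, Real.div_rpow ht h0.le] at h1
      have e1 : s ^ (p - 2) * s = s ^ (p - 1) := by
        rw [← Real.rpow_add_one h0.ne']; congr 1; ring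
      have e2 : t ^ (p - 2) * t = t ^ (p - 1) := by
        rcases eq_or_lt_of_le ht with h2 | h2
        · rw [← h2, mul_zero, Real.zero_rpow (by linarith)]
        · rw [← Real.rpow_add_one h2.ne']; congr 1; ring
      have hsp : 0 < s ^ (p - 1) := by positivity
      have h2 : s ^ (p - 1) * (1 + (p - 1) * (t / s - 1)) ≤ t ^ (p - 1) := by
        rw [le_div_iff₀ hsp] at h1
        linarith
      have e3 : s ^ (p - 1) * (t / s - 1) = s ^ (p - 2) * (t - s) := by
        rw [← e1]; field_simp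
      have e4 : s ^ (p - 1) * (1 + (p - 1) * (t / s - 1)) =
          s ^ (p - 1) + (p - 1) * (s ^ (p - 1) * (t / s - 1)) := by ring
      rw [e4, e3] at h2
      rw [e1, e2]
      linarith
  have hmono : ∀ s t : ℝ, 0 ≤ t → t ≤ s → t ^ (p - 2) * t ≤ s ^ (p - 2) * s := by
    intro s t ht hts
    apply mul_le_mul (Real.rpow_le_rpow ht hts (by linarith)) hts ht
    have : 0 ≤ s := ht.trans hts
    positivity
  have hnn : ∀ s t : ℝ, 0 ≤ s → 0 ≤ t → |s ^ (p - 2) * s - t ^ (p - 2) * t| ≤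
      (p - 1) * (s ^ (p - 2) * |s - t| + t ^ (p - 2) * |s - t|) := by
    intro s t hs ht
    rcases le_total t s with h | h
    · rw [abs_of_nonneg (by linarith [hmono s t ht h]), abs_of_nonneg (by linarith)]
      have h1 := hpos s t ht h
      have h2 : 0 ≤ (p - 1) * (t ^ (p - 2) * (s - t)) := by
        apply mul_nonneg (by linarith)
        apply mul_nonneg (by positivity) (by linarith)
      linarith
    · rw [abs_of_nonpos (by linarith [hmono t s hs h]), abs_of_nonpos (show s - t ≤ 0 by linarith)]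
      have h1 := hpos t s hs h
      have h2 : 0 ≤ (p - 1) * (s ^ (p - 2) * -(s - t)) := by
        apply mul_nonneg (by linarith)
        apply mul_nonneg (by positivity) (by linarith)
      linarith
  have hmix : ∀ s t : ℝ, 0 ≤ s → 0 ≤ t → |s ^ (p - 2) * s + t ^ (p - 2) * t| ≤
      (p - 1) * (s ^ (p - 2) * (s + t) + t ^ (p - 2) * (s + t)) := by
    intro s t hs ht
    rw [abs_of_nonneg (by positivity)]
    have a1 : 0 ≤ s ^ (p - 2) := by positivity
    have a2 : 0 ≤ t ^ (p - 2) := by positivity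
    have a3 : 0 ≤ s ^ (p - 2) * (s + t) + t ^ (p - 2) * (s + t) := by positivity
    have a4 : s ^ (p - 2) * (s + t) + t ^ (p - 2) * (s + t) ≤
      (p - 1) * (s ^ (p - 2) * (s + t) + t ^ (p - 2) * (s + t)) := by
      apply le_mul_of_one_le_left a3; linarith
    have a5 : 0 ≤ s ^ (p - 2) * t + t ^ (p - 2) * s := by positivity
    linarith
  rcases le_total 0 s with hs | hs <;> rcases le_total 0 t with ht | ht
  · rw [abs_of_nonneg hs, abs_of_nonneg ht]
    exact hnn s t hs ht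
  · rw [abs_of_nonneg hs, abs_of_nonpos ht, abs_of_nonneg (show 0 ≤ s - t by linarith)]
    have h1 := hmix s (-t) hs (by linarith)
    rw [show s + -t = s - t by ring] at h1
    rw [show s ^ (p - 2) * s - (-t) ^ (p - 2) * t = s ^ (p - 2) * s + (-t) ^ (p - 2) * -t by ring]
    exact h1
  · rw [abs_of_nonpos hs, abs_of_nonneg ht, abs_of_nonpos (show s - t ≤ 0 by linarith)]
    have h1 := hmix (-s) t (by linarith) ht
    rw [show -s + t = -(s - t) by ring] at h1
    rw [show (-s) ^ (p - 2) * s - t ^ (p - 2) * t = -((-s) ^ (p - 2) * -s + t ^ (p - 2) * t) by ring,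
      abs_neg]
    exact h1
  · rw [abs_of_nonpos hs, abs_of_nonpos ht]
    have h1 := hnn (-s) (-t) (by linarith) (by linarith)
    rw [show -s - -t = -(s - t) by ring, abs_neg] at h1
    rw [show (-s) ^ (p - 2) * s - (-t) ^ (p - 2) * t =
      -((-s) ^ (p - 2) * -s - (-t) ^ (p - 2) * -t) by ring, abs_neg]
    exact h1

end Pool.Agent.R217.KM
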