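import Pool.Agent.R217.KM.Con1
import Pool.Agent.R217.KM.Abs4

set_option autoImplicit false
set_option linter.unusedSectionVars false
set_option linter.unusedVariables false

open MeasureTheory Filter Topology
open scoped ContDiff ENNReal NNReal RealInnerProductSpace

namespace Pool.Agent.R217.KM

open Pool.Agent.R217.BN (E cexp sobS H01)
open Pool.Agent.R217.HS

variable {n : ℕ}

/-- The Poincaré constant. -/
noncomputable def PC {n : ℕ} (Ω : Set (E n)) : ℝ :=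
  volume.real Ω + Real.sqrt (1 / sobS n) ^ cexp n

lemma PC_nonneg (Ω : Set (E n)) : 0 ≤ PC Ω := by unfold PC; positivity

/-- The space of pairs. -/
noncomputable abbrev PP {n : ℕ} (Ω : Set (E n)) : Submodule ℝ (XX n) := (TO Ω).topologicalClosure

/-- The gradient map. -/
noncomputable def gm {n : ℕ} (Ω : Set (E n)) :
    PP Ω →L[ℝ] Lp (E n) 2 (volume : Measure (E n)) :=
  (WithLp.sndL 2 ℝ _ _).comp (PP Ω).subtypeL

lemma gm_apply (Ω : Set (E n)) (q : PP Ω) : gm Ω q = (q : XX n).snd := rfl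

/-- The Poincaré inequality in the space of pairs. -/
lemma gm_bound (hn : 3 ≤ n) {Ω : Set (E n)} (hΩ : MeasurableSet Ω) (hb : Bornology.IsBounded Ω)
    (q : PP Ω) : ‖q‖ ≤ Real.sqrt (1 + PC Ω) * ‖gm Ω q‖ := by
  have h1 := poinc hn hΩ hb (h01_of_mem q.2)
  have h2 : ‖(q : XX n)‖ ^ 2 = ‖(q : XX n).fst‖ ^ 2 + ‖(q : XX n).snd‖ ^ 2 :=
    WithLp.prod_norm_sq_eq_of_L2 _
  have e1 : ‖(q : XX n).fst‖ ^ 2 = ∫ x, ((q : XX n).fst : E n → ℝ) x ^ 2 := by
    have := norm_sq_toLp (Lp.memLp (q : XX n).fst)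
    rw [Lp.toLp_coeFn] at this
    rw [this]
    simp only [Real.norm_eq_abs, sq_abs]
  have e2 : ‖(q : XX n).snd‖ ^ 2 = ∫ x, ‖((q : XX n).snd : E n → E n) x‖ ^ 2 := by
    have := norm_sq_toLp (Lp.memLp (q : XX n).snd)
    rw [Lp.toLp_coeFn] at this
    exact this
  rw [← e1, ← e2] at h1
  have h3 : ‖(q : XX n)‖ ^ 2 ≤ (Real.sqrt (1 + PC Ω) * ‖gm Ω q‖) ^ 2 := by
    rw [mul_pow, Real.sq_sqrt (by have := PC_nonneg Ω; linarith), gm_apply, h2]
    change _ ≤ (1 + PC Ω) * _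
    unfold PC
    linarith
  exact abs_le_of_sq_le_sq' h3 (by positivity) |>.2

lemma gm_inj (hn : 3 ≤ n) {Ω : Set (E n)} (hΩ : MeasurableSet Ω) (hb : Bornology.IsBounded Ω) :
    Function.Injective (gm Ω) := by
  rw [injective_iff_map_eq_zero]
  intro q hq
  have h1 := gm_bound hn hΩ hb q
  rw [hq, norm_zero, mul_zero] at h1
  exact norm_le_zero_iff.1 h1

/-- The Hilbert space `H_0^1(Ω)` with the norm `|∇u|_2`. -/
noncomputable abbrev HH {n : ℕ} (Ω : Set (E n)) :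
    Submodule ℝ (Lp (E n) 2 (volume : Measure (E n))) :=
  LinearMap.range (gm Ω : PP Ω →ₗ[ℝ] Lp (E n) 2 (volume : Measure (E n)))

lemma HH_complete (hn : 3 ≤ n) {Ω : Set (E n)} (hΩ : MeasurableSet Ω)
    (hb : Bornology.IsBounded Ω) : CompleteSpace (HH Ω) := by
  have hc : CompleteSpace (PP Ω) :=
    ((TO Ω).isClosed_topologicalClosure.isComplete).completeSpace_coe
  have ha : AntilipschitzWith ⟨Real.sqrt (1 + PC Ω), Real.sqrt_nonneg _⟩ (gm Ω) :=
    (gm Ω).antilipschitz_of_bound (gm_bound hn hΩ hb)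
  have h1 : IsClosed (Set.range (gm Ω)) := ha.isClosed_range (gm Ω).uniformContinuous
  have h2 : IsClosed ((HH Ω : Submodule ℝ _) : Set (Lp (E n) 2 (volume : Measure (E n)))) := by
    rw [LinearMap.coe_range]
    exact h1
  exact h2.isComplete.completeSpace_coe

/-- The isomorphism. -/
noncomputable def eqv (hn : 3 ≤ n) {Ω : Set (E n)} (hΩ : MeasurableSet Ω)
    (hb : Bornology.IsBounded Ω) : PP Ω ≃ₗ[ℝ] HH Ω :=
  LinearEquiv.ofInjective (gm Ω : PP Ω →ₗ[ℝ] Lp (E n) 2 (volume : Measure (E n)))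
    (gm_inj hn hΩ hb)

section

variable (hn : 3 ≤ n) {Ω : Set (E n)} (hΩ : MeasurableSet Ω) (hb : Bornology.IsBounded Ω)

/-- The function with gradient `U`. -/
noncomputable def fn (U : HH Ω) : Lp ℝ 2 (volume : Measure (E n)) :=
  (((eqv hn hΩ hb).symm U : PP Ω) : XX n).fst

lemma snd_eq (U : HH Ω) : (((eqv hn hΩ hb).symm U : PP Ω) : XX n).snd =
    (U : Lp (E n) 2 (volume : Measure (E n))) := by
  have h1 : (eqv hn hΩ hb) ((eqv hn hΩ hb).symm U) = U := LinearEquiv.apply_symm_apply _ _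
  have h2 := congrArg (Subtype.val) h1
  exact h2

lemma fn_h01 (U : HH Ω) : H01 Ω (fn hn hΩ hb U : E n → ℝ)
    ((U : Lp (E n) 2 (volume : Measure (E n))) : E n → E n) := by
  have h1 := h01_of_mem ((eqv hn hΩ hb).symm U).2
  rw [snd_eq hn hΩ hb U] at h1
  exact h1

lemma fn_add (U V : HH Ω) : fn hn hΩ hb (U + V) = fn hn hΩ hb U + fn hn hΩ hb V := by
  unfold fn
  rw [map_add]
  rfl

lemma fn_smul (c : ℝ) (U : HH Ω) : fn hn hΩ hb (c • U) = c • fn hn hΩ hb U := by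
  unfold fn
  rw [map_smul]
  rfl

lemma norm_U (U : HH Ω) : ‖U‖ ^ 2 = ∫ x, ‖((U : Lp (E n) 2 (volume : Measure (E n))) :
    E n → E n) x‖ ^ 2 := by
  have := norm_sq_toLp (Lp.memLp (U : Lp (E n) 2 (volume : Measure (E n))))
  rw [Lp.toLp_coeFn] at this
  exact this

lemma inner_U (U V : HH Ω) : ⟪U, V⟫ = ∫ x, ⟪((U : Lp (E n) 2 (volume : Measure (E n))) :
    E n → E n) x, ((V : Lp (E n) 2 (volume : Measure (E n))) : E n → E n) x⟫ := by
  have := inner_toLp (Lp.memLp (U : Lp (E n) 2 (volume : Measure (E n))))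
    (Lp.memLp (V : Lp (E n) 2 (volume : Measure (E n))))
  rw [Lp.toLp_coeFn, Lp.toLp_coeFn] at this
  exact this

/-- Every pair comes from an element of `HH Ω`. -/
lemma exists_U {u : E n → ℝ} {G : E n → E n} (h : H01 Ω u G) :
    ∃ U : HH Ω, (fn hn hΩ hb U : E n → ℝ) =ᵐ[volume] u ∧
      ((U : Lp (E n) 2 (volume : Measure (E n))) : E n → E n) =ᵐ[volume] G := by
  refine ⟨eqv hn hΩ hb ⟨_, mem_of_h01 h⟩, ?_, ?_⟩
  · unfold fn
    rw [LinearEquiv.symm_apply_apply]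
    exact MemLp.coeFn_toLp h.1
  · exact MemLp.coeFn_toLp h.2.1

lemma fn_add_ae (U V : HH Ω) : (fn hn hΩ hb (U + V) : E n → ℝ) =ᵐ[volume]
    fun x => (fn hn hΩ hb U : E n → ℝ) x + (fn hn hΩ hb V : E n → ℝ) x := by
  rw [fn_add]
  exact Lp.coeFn_add _ _

lemma fn_smul_ae (c : ℝ) (U : HH Ω) : (fn hn hΩ hb (c • U) : E n → ℝ) =ᵐ[volume]
    fun x => c * (fn hn hΩ hb U : E n → ℝ) x := by
  rw [fn_smul]
  exact Lp.coeFn_smul _ _

lemma fn_sub_ae (U V : HH Ω) : (fn hn hΩ hb (U - V) : E n → ℝ) =ᵐ[volume]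
    fun x => (fn hn hΩ hb U : E n → ℝ) x - (fn hn hΩ hb V : E n → ℝ) x := by
  have h1 : fn hn hΩ hb (U - V) = fn hn hΩ hb U - fn hn hΩ hb V := by
    unfold fn
    rw [map_sub]
    rfl
  rw [h1]
  exact Lp.coeFn_sub _ _

/-- The embedding into `L²(Ω)`. -/
noncomputable def io : HH Ω →L[ℝ] Lp ℝ 2 (volume.restrict Ω) :=
  LinearMap.mkContinuous
    { toFun := fun U => LpToLpRestrictCLM (E n) ℝ ℝ volume 2 Ω (fn hn hΩ hb U)
      map_add' := fun U V => by rw [fn_add, map_add]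
      map_smul' := fun c U => by rw [fn_smul, map_smul]; rfl }
    (‖LpToLpRestrictCLM (E n) ℝ ℝ (volume : Measure (E n)) 2 Ω‖ * Real.sqrt (1 + PC Ω))
    (fun U => by
      change ‖LpToLpRestrictCLM (E n) ℝ ℝ volume 2 Ω (fn hn hΩ hb U)‖ ≤ _
      refine (ContinuousLinearMap.le_opNorm _ _).trans ?_
      rw [mul_assoc]
      gcongr
      have h1 := gm_bound hn hΩ hb ((eqv hn hΩ hb).symm U)
      rw [gm_apply, snd_eq] at h1
      refine le_trans ?_ h1
      exact WithLp.norm_fst_le (p := 2) (x := (((eqv hn hΩ hb).symm U : PP Ω) : XX n)))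

lemma io_apply (U : HH Ω) : io hn hΩ hb U =
    LpToLpRestrictCLM (E n) ℝ ℝ volume 2 Ω (fn hn hΩ hb U) := rfl

lemma io_ae (U : HH Ω) : (io hn hΩ hb U : E n → ℝ) =ᵐ[volume.restrict Ω] fn hn hΩ hb U := by
  rw [io_apply]
  exact LpToLpRestrictCLM_coeFn ℝ Ω _

end

end Pool.Agent.R217.KM
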