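import Pool.Agent.R217.KM.Con2

set_option autoImplicit false
set_option linter.unusedSectionVars false
set_option linter.unusedVariables false

open MeasureTheory Filter Topology
open scoped ContDiff ENNReal NNReal RealInnerProductSpace

namespace Pool.Agent.R217.KM

open Pool.Agent.R217.BN (E cexp sobS H01)
open Pool.Agent.R217.HS

section W

variable {H L : Type*} [NormedAddCommGroup H] [InnerProductSpace ℝ H]
  [NormedAddCommGroup L] [InnerProductSpace ℝ L]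

lemma W_of_indep (ι : H →L[ℝ] L) (e : Fin 6 → H) (he : LinearIndependent ℝ (fun i => ι (e i))) :
    ∃ κ : ℝ, 0 < κ ∧ ∀ f : Fin 5 → (H →ₗ[ℝ] ℝ), ∃ w : H, ‖ι w‖ = 1 ∧ ‖w‖ ≤ κ ∧
      ∀ i, f i w = 0 := by
  obtain ⟨T, hT⟩ : ∃ T : (Fin 6 → ℝ) →ₗ[ℝ] H, T = Fintype.linearCombination ℝ e := ⟨_, rfl⟩
  have hTi : ∀ c, ι (T c) = Fintype.linearCombination ℝ (fun i => ι (e i)) c := by
    intro c
    rw [hT, Fintype.linearCombination_apply, Fintype.linearCombination_apply, map_sum]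
    simp only [map_smul]
  have hinj : Function.Injective (Fintype.linearCombination ℝ (fun i => ι (e i))) :=
    he.fintypeLinearCombination_injective
  obtain ⟨K, hK, hKa⟩ := LinearMap.exists_antilipschitzWith
    (Fintype.linearCombination ℝ (fun i => ι (e i))) (LinearMap.ker_eq_bot.2 hinj)
  have hKb : ∀ c : Fin 6 → ℝ, ‖c‖ ≤ K * ‖ι (T c)‖ := by
    intro c
    have := hKa.le_mul_dist c 0
    rw [map_zero, dist_zero_right, dist_zero_right] at this
    rw [hTi]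
    exact this
  have hTb : ∀ c : Fin 6 → ℝ, ‖T c‖ ≤ ‖LinearMap.toContinuousLinearMap T‖ * ‖c‖ :=
    fun c => (LinearMap.toContinuousLinearMap T).le_opNorm c
  refine ⟨‖LinearMap.toContinuousLinearMap T‖ * K + 1, by positivity, fun f => ?_⟩
  obtain ⟨P, hP⟩ : ∃ P : (Fin 6 → ℝ) →ₗ[ℝ] (Fin 5 → ℝ),
    P = LinearMap.pi (fun i => (f i).comp T) := ⟨_, rfl⟩
  have hker : LinearMap.ker P ≠ ⊥ := by
    apply LinearMap.ker_ne_bot_of_finrank_lt
    simp
  obtain ⟨c, hc, hc0⟩ := (Submodule.ne_bot_iff _).1 hker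
  have hc' : ∀ i, f i (T c) = 0 := by
    intro i
    have := congrFun (LinearMap.mem_ker.1 hc) i
    rw [hP] at this
    simpa using this
  have hne : 0 < ‖ι (T c)‖ := by
    rw [norm_pos_iff]
    intro h
    have := hKb c
    rw [h, norm_zero, mul_zero] at this
    exact hc0 (norm_le_zero_iff.1 this)
  refine ⟨‖ι (T c)‖⁻¹ • T c, ?_, ?_, ?_⟩
  · rw [map_smul, norm_smul, norm_inv, norm_norm, inv_mul_cancel₀ hne.ne']
  · rw [norm_smul, norm_inv, norm_norm]
    have h1 := hTb c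
    have h2 := hKb c
    have h3 : ‖T c‖ ≤ ‖LinearMap.toContinuousLinearMap T‖ * (K * ‖ι (T c)‖) :=
      h1.trans (by gcongr)
    calc ‖ι (T c)‖⁻¹ * ‖T c‖ ≤ ‖ι (T c)‖⁻¹ *
          (‖LinearMap.toContinuousLinearMap T‖ * (K * ‖ι (T c)‖)) := by gcongr
      _ = ‖LinearMap.toContinuousLinearMap T‖ * K := by field_simp
      _ ≤ _ := by linarith
  · intro i
    rw [map_smul, hc', smul_zero]

end W

variable {n : ℕ}

section

variable (hn : 3 ≤ n) {Ω : Set (E n)} (hΩ : MeasurableSet Ω) (hb : Bornology.IsBounded Ω)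

/-- The Sobolev constant. -/
noncomputable def cS (n : ℕ) : ℝ := Real.sqrt (1 / sobS n)

lemma cS_nonneg : 0 ≤ cS n := Real.sqrt_nonneg _

lemma sobF (U : HH Ω) : Integrable (fun x => |(fn hn hΩ hb U : E n → ℝ) x| ^ cexp n) ∧
    ∫ x, |(fn hn hΩ hb U : E n → ℝ) x| ^ cexp n ≤ (cS n * ‖U‖) ^ cexp n := by
  have h1 := sob hn (h01_isH1 (fn_h01 hn hΩ hb U))
  rw [← norm_U, Real.sqrt_sq (norm_nonneg _)] at h1
  exact h1

lemma fn_meas (U : HH Ω) : AEStronglyMeasurable (fn hn hΩ hb U : E n → ℝ) volume :=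
  Lp.aestronglyMeasurable _

/-- The nonlinear term. -/
noncomputable def Gf (U : HH Ω) : ℝ :=
  1 / cexp n * ∫ x, |(fn hn hΩ hb U : E n → ℝ) x| ^ cexp n

lemma abs3 (a b c : ℝ) (r : ℝ) : |(|a| ^ r * b * c)| = |a| ^ r * |b| * |c| := by
  rw [abs_mul, abs_mul, abs_of_nonneg (show 0 ≤ |a| ^ r by positivity)]

lemma int3 (U X V : HH Ω) : Integrable (fun x => |(fn hn hΩ hb U : E n → ℝ) x| ^ (cexp n - 2) *
    (fn hn hΩ hb X : E n → ℝ) x * (fn hn hΩ hb V : E n → ℝ) x) ∧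
    ∫ x, |(fn hn hΩ hb U : E n → ℝ) x| ^ (cexp n - 2) * |(fn hn hΩ hb X : E n → ℝ) x| *
      |(fn hn hΩ hb V : E n → ℝ) x| ≤
      (cS n * ‖U‖) ^ (cexp n - 2) * (cS n * ‖X‖) * (cS n * ‖V‖) := by
  have h := holder3 (two_lt_cexp hn) (sobF hn hΩ hb U).1 (sobF hn hΩ hb X).1 (sobF hn hΩ hb V).1
    (fn_meas hn hΩ hb U) (fn_meas hn hΩ hb X) (fn_meas hn hΩ hb V)
  have hc := cS_nonneg (n := n)
  refine ⟨?_, h.2 _ _ _ (by positivity) (by positivity) (by positivity) (sobF hn hΩ hb U).2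
    (sobF hn hΩ hb X).2 (sobF hn hΩ hb V).2⟩
  have m1 : AEMeasurable (fun x => |(fn hn hΩ hb U : E n → ℝ) x| ^ (cexp n - 2)) volume :=
    ((fn_meas hn hΩ hb U).aemeasurable.abs).pow_const _
  have m2 : AEStronglyMeasurable (fun x => |(fn hn hΩ hb U : E n → ℝ) x| ^ (cexp n - 2) *
    (fn hn hΩ hb X : E n → ℝ) x * (fn hn hΩ hb V : E n → ℝ) x) volume :=
    ((m1.mul (fn_meas hn hΩ hb X).aemeasurable).mul
      (fn_meas hn hΩ hb V).aemeasurable).aestronglyMeasurable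
  refine h.1.mono' m2 (Eventually.of_forall fun x => ?_)
  rw [Real.norm_eq_abs, abs3]

/-- The functional `V ↦ ∫ |u|^{p-2} u v`. -/
noncomputable def ell (U : HH Ω) : HH Ω →L[ℝ] ℝ :=
  LinearMap.mkContinuous
    { toFun := fun V => ∫ x, |(fn hn hΩ hb U : E n → ℝ) x| ^ (cexp n - 2) *
        (fn hn hΩ hb U : E n → ℝ) x * (fn hn hΩ hb V : E n → ℝ) x
      map_add' := fun V W => by
        rw [← integral_add (int3 hn hΩ hb U U V).1 (int3 hn hΩ hb U U W).1]
        apply integral_congr_ae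
        filter_upwards [fn_add_ae hn hΩ hb V W] with x hx
        rw [hx]; ring
      map_smul' := fun c V => by
        rw [RingHom.id_apply, smul_eq_mul, ← integral_const_mul]
        apply integral_congr_ae
        filter_upwards [fn_smul_ae hn hΩ hb c V] with x hx
        rw [hx]; ring }
    ((cS n * ‖U‖) ^ (cexp n - 2) * (cS n * ‖U‖) * cS n)
    (fun V => by
      change ‖∫ x, |(fn hn hΩ hb U : E n → ℝ) x| ^ (cexp n - 2) *
        (fn hn hΩ hb U : E n → ℝ) x * (fn hn hΩ hb V : E n → ℝ) x‖ ≤ _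
      refine (norm_integral_le_integral_norm _).trans ?_
      simp only [Real.norm_eq_abs, abs3]
      refine (int3 hn hΩ hb U U V).2.trans (le_of_eq ?_)
      ring)

lemma ell_apply (U V : HH Ω) : ell hn hΩ hb U V =
    ∫ x, |(fn hn hΩ hb U : E n → ℝ) x| ^ (cexp n - 2) *
        (fn hn hΩ hb U : E n → ℝ) x * (fn hn hΩ hb V : E n → ℝ) x := rfl

lemma exists_g : ∃ g : HH Ω → HH Ω, ∀ U V, ⟪g U, V⟫ =
    ∫ x, |(fn hn hΩ hb U : E n → ℝ) x| ^ (cexp n - 2) *
        (fn hn hΩ hb U : E n → ℝ) x * (fn hn hΩ hb V : E n → ℝ) x := by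
  have := HH_complete hn hΩ hb
  refine ⟨fun U => (InnerProductSpace.toDual ℝ (HH Ω)).symm (ell hn hΩ hb U), fun U V => ?_⟩
  rw [InnerProductSpace.toDual_symm_apply, ell_apply]

lemma rpow_self (a : ℝ) {p : ℝ} (hp : 2 < p) : |a| ^ (p - 2) * a * a = |a| ^ p := by
  rw [mul_assoc, ← pow_two, ← sq_abs a]
  rcases eq_or_lt_of_le (abs_nonneg a) with h | h
  · rw [← h, Real.zero_rpow (by linarith), Real.zero_rpow (by linarith), zero_mul]
  · rw [← Real.rpow_natCast |a| 2, ← Real.rpow_add h]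
    congr 1
    push_cast
    ring

lemma g_lip {g : HH Ω → HH Ω} (hg : ∀ U V, ⟪g U, V⟫ =
    ∫ x, |(fn hn hΩ hb U : E n → ℝ) x| ^ (cexp n - 2) *
        (fn hn hΩ hb U : E n → ℝ) x * (fn hn hΩ hb V : E n → ℝ) x) (U W : HH Ω) :
    ‖g U - g W‖ ≤ ((cexp n - 1) * (cS n ^ (cexp n - 2) * cS n * cS n)) *
      (‖U‖ ^ (cexp n - 2) + ‖W‖ ^ (cexp n - 2)) * ‖U - W‖ := by
  have hp : 2 < cexp n := two_lt_cexp hn
  have hc := cS_nonneg (n := n)
  have key : ∀ V : HH Ω, ⟪g U - g W, V⟫ ≤ ((cexp n - 1) * (cS n ^ (cexp n - 2) * cS n * cS n)) *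
      (‖U‖ ^ (cexp n - 2) + ‖W‖ ^ (cexp n - 2)) * ‖U - W‖ * ‖V‖ := by
    intro V
    rw [inner_sub_left, hg, hg, ← integral_sub (int3 hn hΩ hb U U V).1 (int3 hn hΩ hb W W V).1]
    have i1 : Integrable (fun x => |(fn hn hΩ hb U : E n → ℝ) x| ^ (cexp n - 2) *
        |(fn hn hΩ hb (U - W) : E n → ℝ) x| * |(fn hn hΩ hb V : E n → ℝ) x|) := by
      have := (int3 hn hΩ hb U (U - W) V).1.abs
      simpa only [abs3] using this
    have i2 : Integrable (fun x => |(fn hn hΩ hb W : E n → ℝ) x| ^ (cexp n - 2) *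
        |(fn hn hΩ hb (U - W) : E n → ℝ) x| * |(fn hn hΩ hb V : E n → ℝ) x|) := by
      have := (int3 hn hΩ hb W (U - W) V).1.abs
      simpa only [abs3] using this
    have h1 : ∫ x, (|(fn hn hΩ hb U : E n → ℝ) x| ^ (cexp n - 2) *
        (fn hn hΩ hb U : E n → ℝ) x * (fn hn hΩ hb V : E n → ℝ) x -
        |(fn hn hΩ hb W : E n → ℝ) x| ^ (cexp n - 2) *
        (fn hn hΩ hb W : E n → ℝ) x * (fn hn hΩ hb V : E n → ℝ) x) ≤
        ∫ x, (cexp n - 1) * (|(fn hn hΩ hb U : E n → ℝ) x| ^ (cexp n - 2) *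
        |(fn hn hΩ hb (U - W) : E n → ℝ) x| * |(fn hn hΩ hb V : E n → ℝ) x| +
        |(fn hn hΩ hb W : E n → ℝ) x| ^ (cexp n - 2) *
        |(fn hn hΩ hb (U - W) : E n → ℝ) x| * |(fn hn hΩ hb V : E n → ℝ) x|) := by
      apply integral_mono_ae ((int3 hn hΩ hb U U V).1.sub (int3 hn hΩ hb W W V).1)
        ((i1.add i2).const_mul _)
      filter_upwards [fn_sub_ae hn hΩ hb U W] with x hx
      simp only [Pi.sub_apply, Pi.add_apply]
      rw [hx]
      have h2 := diff_pow hp ((fn hn hΩ hb U : E n → ℝ) x) ((fn hn hΩ hb W : E n → ℝ) x)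
      have h3 := mul_le_mul_of_nonneg_right h2 (abs_nonneg ((fn hn hΩ hb V : E n → ℝ) x))
      rw [← abs_mul] at h3
      refine le_trans (le_of_eq ?_) ((le_abs_self _).trans (h3.trans (le_of_eq ?_)))
      · ring
      · ring
    refine h1.trans ?_
    rw [integral_const_mul, integral_add i1 i2]
    have h4 := (int3 hn hΩ hb U (U - W) V).2
    have h5 := (int3 hn hΩ hb W (U - W) V).2
    have h6 : 0 ≤ cexp n - 1 := by linarith
    calc _ ≤ (cexp n - 1) * ((cS n * ‖U‖) ^ (cexp n - 2) * (cS n * ‖U - W‖) * (cS n * ‖V‖) +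
          (cS n * ‖W‖) ^ (cexp n - 2) * (cS n * ‖U - W‖) * (cS n * ‖V‖)) := by gcongr
      _ = _ := by
          rw [Real.mul_rpow hc (norm_nonneg _), Real.mul_rpow hc (norm_nonneg _)]
          ring
  have h1 := key (g U - g W)
  rw [real_inner_self_eq_norm_sq] at h1
  rcases eq_or_lt_of_le (norm_nonneg (g U - g W)) with h | h
  · rw [← h]
    have : 0 ≤ cexp n - 1 := by linarith
    positivity
  · rw [pow_two] at h1
    exact le_of_mul_le_mul_right h1 h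

lemma G_deriv {g : HH Ω → HH Ω} (hg : ∀ U V, ⟪g U, V⟫ =
    ∫ x, |(fn hn hΩ hb U : E n → ℝ) x| ^ (cexp n - 2) *
        (fn hn hΩ hb U : E n → ℝ) x * (fn hn hΩ hb V : E n → ℝ) x) (U V : HH Ω) (t : ℝ) :
    HasDerivAt (fun s : ℝ => Gf hn hΩ hb (U + s • V)) ⟪g (U + t • V), V⟫ t := by
  have hp : 2 < cexp n := two_lt_cexp hn
  have h1 := (hasDerivAt_int_rpow (show 1 < cexp n by linarith) (sobF hn hΩ hb (U + t • V)).1
    (sobF hn hΩ hb V).1 (fn_meas hn hΩ hb (U + t • V)) (fn_meas hn hΩ hb V)).2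
  have h2 := h1.const_mul (1 / cexp n)
  have h3 : HasDerivAt (fun s : ℝ => 1 / cexp n * ∫ x, |(fn hn hΩ hb (U + t • V) : E n → ℝ) x +
      s * (fn hn hΩ hb V : E n → ℝ) x| ^ cexp n) (⟪g (U + t • V), V⟫) (t - t) := by
    rw [sub_self]
    refine h2.congr_deriv ?_
    rw [hg]
    have : cexp n ≠ 0 := by linarith
    field_simp
  have h4 := h3.comp_sub_const t t
  refine h4.congr_of_eventuallyEq (Eventually.of_forall fun s => ?_)
  dsimp only
  unfold Gf
  congr 1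
  apply integral_congr_ae
  have e : U + s • V = (U + t • V) + (s - t) • V := by module
  filter_upwards [fn_add_ae hn hΩ hb (U + t • V) ((s - t) • V),
    fn_smul_ae hn hΩ hb (s - t) V] with x h5 h6
  rw [e, h5, h6]

end

end Pool.Agent.R217.KM
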