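import Pool.Agent.R217.KM.Con3

set_option autoImplicit false
set_option linter.unusedSectionVars false
set_option linter.unusedVariables false

open MeasureTheory Filter Topology
open scoped ContDiff ENNReal NNReal RealInnerProductSpace

namespace Pool.Agent.R217.KM

open Pool.Agent.R217.BN (E cexp sobS H01)
open Pool.Agent.R217.HS

variable {n : ℕ}

section

variable (hn : 3 ≤ n) {Ω : Set (E n)} (hΩ : MeasurableSet Ω) (hb : Bornology.IsBounded Ω)

/-- Compactness of the embedding. -/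
lemma io_cpt (R : ℝ) : TotallyBounded (io hn hΩ hb '' Metric.closedBall 0 R) := by
  rcases lt_or_ge R 0 with hR | hR
  · rw [Metric.closedBall_eq_empty.2 hR, Set.image_empty]
    exact totallyBounded_empty
  obtain ⟨r, hr⟩ := hb.exists_norm_le
  obtain ⟨N, hN⟩ := exists_nat_ge r
  obtain ⟨M, hM⟩ : ∃ M, M = (1 + PC Ω) * R ^ 2 := ⟨_, rfl⟩
  have hT := totallyBounded_chi (n := n) (by omega) N M
  have hT2 := hT.image (LpToLpRestrictCLM (E n) ℝ ℝ (volume : Measure (E n)) 2 Ω).uniformContinuous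
  refine hT2.subset ?_
  rintro _ ⟨U, hU, rfl⟩
  rw [mem_closedBall_zero_iff] at hU
  refine ⟨fn hn hΩ hb U, ⟨_, _, h01_isH1 (fn_h01 hn hΩ hb U), ?_, ?_⟩, rfl⟩
  · have h1 := poinc hn hΩ hb (fn_h01 hn hΩ hb U)
    rw [← norm_U] at h1 ⊢
    have h2 : ‖U‖ ^ 2 ≤ R ^ 2 := pow_le_pow_left₀ (norm_nonneg _) hU 2
    have h3 := PC_nonneg Ω
    rw [hM]
    change _ ≤ PC Ω * _ at h1
    nlinarith
  · filter_upwards [(h01_zero hΩ (fn_h01 hn hΩ hb U)).1] with x hx
    by_cases hxΩ : x ∈ Ω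
    · rw [chi_one (by have := hr x hxΩ; linarith), one_mul]
    · rw [hx hxΩ, mul_zero]

/-- Disjoint bumps. -/
lemma exists_six (hn1 : 1 ≤ n) (hO : IsOpen Ω) (hne : Ω.Nonempty) :
    ∃ φ : Fin 6 → E n → ℝ, (∀ i, H01 Ω (φ i) (gradient (φ i))) ∧
      (∀ i, ¬ ∀ᵐ x ∂(volume.restrict Ω), φ i x = 0) ∧ ∀ i j, i ≠ j → ∀ x, φ i x * φ j x = 0 := by
  obtain ⟨x0, hx0⟩ := hne
  obtain ⟨r, hr, hball⟩ := Metric.isOpen_iff.1 hO x0 hx0
  obtain ⟨e, he⟩ : ∃ e : E n, ‖e‖ = 1 := ⟨EuclideanSpace.single ⟨0, by omega⟩ 1, by simp⟩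
  obtain ⟨y, hy⟩ : ∃ y : Fin 6 → E n, ∀ i, y i = x0 + ((i : ℝ) * (r / 12)) • e := ⟨_, fun i => rfl⟩
  let B : ∀ i : Fin 6, ContDiffBump (y i) := fun i => ⟨r / 80, r / 40, by positivity, by linarith⟩
  have hsub : ∀ i, Metric.closedBall (y i) (r / 40) ⊆ Ω := by
    intro i x hx
    apply hball
    rw [Metric.mem_closedBall] at hx
    rw [Metric.mem_ball]
    have h1 : dist (y i) x0 ≤ 5 * (r / 12) := by
      rw [hy, dist_eq_norm, add_sub_cancel_left, norm_smul, he, mul_one, Real.norm_eq_abs,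
        abs_of_nonneg (by positivity)]
      have : ((i : ℕ) : ℝ) ≤ 5 := by
        have := i.2
        exact_mod_cast (by omega : (i : ℕ) ≤ 5)
      gcongr
    have h2 := dist_triangle x (y i) x0
    linarith
  have hts : ∀ i, tsupport (B i : E n → ℝ) = Metric.closedBall (y i) (r / 40) := fun i =>
    (B i).tsupport_eq
  have hT : ∀ i, Tst (B i : E n → ℝ) := fun i => ⟨(B i).contDiff, (B i).hasCompactSupport⟩
  refine ⟨fun i => B i, fun i => ?_, fun i hcon => ?_, fun i j hij x => ?_⟩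
  · refine ⟨(hT i).memLp 2, (hT i).memLp_grad 2, fun _ => B i, fun _ => ⟨(hT i).1, (hT i).2, ?_⟩,
      by simp, by simp⟩
    rw [hts]; exact hsub i
  · have h1 : volume (Metric.ball (y i) (r / 80)) = 0 := by
      rw [ae_restrict_iff' hO.measurableSet] at hcon
      refine measure_mono_null ?_ hcon
      intro x hx
      rw [Metric.mem_ball] at hx
      have h2 : x ∈ Metric.closedBall (y i) (r / 80) := by
        rw [Metric.mem_closedBall]; exact hx.le
      have h3 : B i x = 1 := (B i).one_of_mem_closedBall h2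
      have h4 : x ∈ Ω := hsub i (by rw [Metric.mem_closedBall]; linarith)
      simp only [Set.mem_compl_iff, Set.mem_ofPred_eq, Classical.not_imp]
      exact ⟨h4, by rw [h3]; norm_num⟩
    have h2 := Metric.measure_ball_pos volume (y i) (show 0 < r / 80 by positivity)
    exact h2.ne' h1
  · by_contra hc
    have h1 : B i x ≠ 0 := left_ne_zero_of_mul hc
    have h2 : B j x ≠ 0 := right_ne_zero_of_mul hc
    have h3 : dist x (y i) < r / 40 := by
      by_contra h
      push Not at h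
      exact h1 ((B i).zero_of_le_dist h)
    have h4 : dist x (y j) < r / 40 := by
      by_contra h
      push Not at h
      exact h2 ((B j).zero_of_le_dist h)
    have h5 := dist_triangle_left (y i) (y j) x
    have h6 : r / 12 ≤ dist (y i) (y j) := by
      rw [hy, hy, dist_eq_norm, add_sub_add_left_eq_sub, ← sub_smul, norm_smul, he, mul_one,
        ← sub_mul, Real.norm_eq_abs, abs_mul, abs_of_pos (show 0 < r / 12 by positivity)]
      have h7 : (1:ℝ) ≤ |((i:ℕ):ℝ) - ((j:ℕ):ℝ)| := by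
        have h8 : ((i:ℕ):ℤ) - ((j:ℕ):ℤ) ≠ 0 := by
          intro h
          apply hij
          apply Fin.ext
          omega
        have h9 : (1:ℤ) ≤ |((i:ℕ):ℤ) - ((j:ℕ):ℤ)| := Int.one_le_abs h8
        exact_mod_cast h9
      have : 0 < r / 12 := by positivity
      nlinarith
    linarith

lemma exists_W (hO : IsOpen Ω) (hne : Ω.Nonempty) :
    ∃ κ : ℝ, 0 < κ ∧ ∀ f : Fin 5 → (HH Ω →ₗ[ℝ] ℝ), ∃ w : HH Ω, ‖io hn hΩ hb w‖ = 1 ∧ ‖w‖ ≤ κ ∧
      ∀ i, f i w = 0 := by
  obtain ⟨φ, h1, h2, h3⟩ := exists_six (n := n) (by omega) hO hne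
  have hU := fun i => exists_U hn hΩ hb (h1 i)
  choose U hU1 hU2 using hU
  apply W_of_indep (io hn hΩ hb) U
  have hio : ∀ i, (io hn hΩ hb (U i) : E n → ℝ) =ᵐ[volume.restrict Ω] φ i := fun i =>
    (io_ae hn hΩ hb (U i)).trans (ae_restrict_of_ae (hU1 i))
  apply linearIndependent_of_ne_zero_of_inner_eq_zero
  · intro i h
    apply h2 i
    have h4 := hio i
    rw [h] at h4
    filter_upwards [h4, Lp.coeFn_zero ℝ 2 (volume.restrict Ω)] with x h5 h6
    rw [← h5, h6, Pi.zero_apply]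
  · intro i j hij
    rw [L2.inner_def]
    rw [show (0:ℝ) = ∫ x in Ω, (0:ℝ) by simp]
    apply integral_congr_ae
    filter_upwards [hio i, hio j] with x h5 h6
    rw [h5, h6]
    have := h3 i j hij x
    simpa [mul_comm] using this

/-- All the hypotheses of the abstract theorem hold. -/
theorem exists_Dat (hn5 : 5 ≤ n) (hO : IsOpen Ω) (hne : Ω.Nonempty) :
    letI : CompleteSpace (HH Ω) := HH_complete hn hΩ hb
    ∃ (g : HH Ω → HH Ω) (C0 C1 κ : ℝ), (∀ U V, ⟪g U, V⟫ =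
      ∫ x, |(fn hn hΩ hb U : E n → ℝ) x| ^ (cexp n - 2) *
        (fn hn hΩ hb U : E n → ℝ) x * (fn hn hΩ hb V : E n → ℝ) x) ∧
      Dat (io hn hΩ hb) (Gf hn hΩ hb) g (cexp n) C0 C1 κ := by
  have hcomp := HH_complete hn hΩ hb
  obtain ⟨g, hg⟩ := exists_g hn hΩ hb
  obtain ⟨κ, hκ0, hκ⟩ := exists_W hn hΩ hb hO hne
  have hp : 2 < cexp n := two_lt_cexp hn
  have hc := cS_nonneg (n := n)
  refine ⟨g, 1 / cexp n * cS n ^ cexp n, (cexp n - 1) * (cS n ^ (cexp n - 2) * cS n * cS n), κ, hg,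
    ?_⟩
  refine ⟨hp, ?_, by positivity, ?_, ?_, ?_, ?_, ?_, ?_, ?_, io_cpt hn hΩ hb, hκ0, hκ⟩
  · have h5 : (5:ℝ) ≤ n := by exact_mod_cast hn5
    unfold BN.cexp
    rw [div_lt_iff₀ (by linarith)]
    linarith
  · have : 0 ≤ cexp n - 1 := by linarith
    positivity
  · intro u
    unfold Gf
    have : 0 ≤ ∫ x, |(fn hn hΩ hb u : E n → ℝ) x| ^ cexp n :=
      integral_nonneg fun x => by positivity
    positivity
  · intro u
    unfold Gf
    have h1 := (sobF hn hΩ hb u).2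
    rw [Real.mul_rpow hc (norm_nonneg _)] at h1
    rw [mul_assoc]
    gcongr
  · intro u
    unfold Gf
    congr 1
    apply integral_congr_ae
    have e : -u = (-1:ℝ) • u := by module
    filter_upwards [fn_smul_ae hn hΩ hb (-1) u] with x hx
    rw [e, hx, neg_one_mul, abs_neg]
  · exact fun u h t => G_deriv hn hΩ hb hg u h t
  · intro u
    rw [hg]
    unfold Gf
    rw [← mul_assoc, mul_one_div_cancel (by linarith), one_mul]
    apply integral_congr_ae
    exact Eventually.of_forall fun x => rpow_self _ hp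
  · exact g_lip hn hΩ hb hg

end

end Pool.Agent.R217.KM
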