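import Pool.Agent.R217.KM.Con4

set_option autoImplicit false
set_option linter.unusedSectionVars false
set_option linter.unusedVariables false

open MeasureTheory Filter Topology
open scoped ContDiff ENNReal NNReal RealInnerProductSpace

namespace Pool.Agent.R217.KM

open Pool.Agent.R217.BN (E cexp sobS H01)
open Pool.Agent.R217.HS

/-- `L²(Ω)`. -/
abbrev L2O {n : ℕ} (Ω : Set (E n)) : Type := Lp ℝ 2 (volume.restrict Ω)

/-- `∫_Ω |∇u|²`. -/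
noncomputable def gradSq {n : ℕ} (Ω : Set (E n)) (U : E n → E n) : ℝ := ∫ x in Ω, ‖U x‖ ^ 2

/-- `∫_Ω |u|^{2*}`. -/
noncomputable def critInt {n : ℕ} (Ω : Set (E n)) (u : E n → ℝ) : ℝ := ∫ x in Ω, |u x| ^ cexp n

/-- `∫_Ω (u - v)²`. -/
noncomputable def distSq {n : ℕ} (Ω : Set (E n)) (v : L2O Ω) (u : E n → ℝ) : ℝ :=
  ∫ x in Ω, (u x - v x) ^ 2

/-- `∫_Ω ∇u · ∇w`. -/
noncomputable def gradPair {n : ℕ} (Ω : Set (E n)) (U W : E n → E n) : ℝ := ∫ x in Ω, ⟪U x, W x⟫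

/-- `∫_Ω |u|^{2*-2} u w`. -/
noncomputable def critPair {n : ℕ} (Ω : Set (E n)) (u w : E n → ℝ) : ℝ :=
  ∫ x in Ω, |u x| ^ (cexp n - 2) * u x * w x

/-- `∫_Ω (u - v) w`. -/
noncomputable def diffPair {n : ℕ} (Ω : Set (E n)) (v : L2O Ω) (u w : E n → ℝ) : ℝ :=
  ∫ x in Ω, (u x - v x) * w x

/-- The energy functional `E_v` at a pair `(u, ∇u)`. -/
noncomputable def energy {n : ℕ} (Ω : Set (E n)) (a b lam : ℝ) (v : L2O Ω)
    (u : E n → ℝ) (U : E n → E n) : ℝ :=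
  a / 2 * gradSq Ω U + b / 4 * gradSq Ω U ^ 2 - 1 / cexp n * critInt Ω u - lam / 2 * distSq Ω v u

/-- `u` (with `∇u = U`) is a global minimizer of `E_v` on `H_0^1(Ω)`. -/
def GlobalMin {n : ℕ} (Ω : Set (E n)) (a b lam : ℝ) (v : L2O Ω)
    (u : E n → ℝ) (U : E n → E n) : Prop :=
  H01 Ω u U ∧ ∀ (w : E n → ℝ) (W : E n → E n), H01 Ω w W →
    energy Ω a b lam v u U ≤ energy Ω a b lam v w W

/-- `u` (with `∇u = U`) is a weak solution of `(P_{λ,v})`. -/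
def WeakSol {n : ℕ} (Ω : Set (E n)) (a b lam : ℝ) (v : L2O Ω)
    (u : E n → ℝ) (U : E n → E n) : Prop :=
  H01 Ω u U ∧ ∀ (w : E n → ℝ) (W : E n → E n), H01 Ω w W →
    (a + b * gradSq Ω U) * gradPair Ω U W = critPair Ω u w + lam * diffPair Ω v u w

/-- The closure of `C` in `L²(Ω)` contains `H_0^1(Ω)`. -/
def CoversH {n : ℕ} (Ω : Set (E n)) (C : Set (L2O Ω)) : Prop :=
  ∀ (u : E n → ℝ) (U : E n → E n), H01 Ω u U → ∀ f : L2O Ω, f =ᵐ[volume.restrict Ω] u →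
    f ∈ closure C

/-- `u` is a global minimizer of `E_v` and a weak solution of `(P_{λ,v})`. -/
def MinSol {n : ℕ} (Ω : Set (E n)) (a b lam : ℝ) (v : L2O Ω) (u : E n → ℝ) (U : E n → E n) :
    Prop :=
  GlobalMin Ω a b lam v u U ∧ WeakSol Ω a b lam v u U

/-- `u` and `w` are different elements of `L²(Ω)`. -/
def Differ {n : ℕ} (Ω : Set (E n)) (u w : E n → ℝ) : Prop := ¬ (u =ᵐ[volume.restrict Ω] w)

/-- Three distinct weak solutions, two of which are global minimizers. -/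
def ThreeSol {n : ℕ} (Ω : Set (E n)) (a b lam : ℝ) (v : L2O Ω) : Prop :=
  ∃ (u1 u2 u3 : E n → ℝ) (U1 U2 U3 : E n → E n), MinSol Ω a b lam v u1 U1 ∧
    MinSol Ω a b lam v u2 U2 ∧ WeakSol Ω a b lam v u3 U3 ∧ Differ Ω u1 u2 ∧ Differ Ω u3 u1 ∧
    Differ Ω u3 u2

/-- Property (M). -/
def PropM {n : ℕ} (Ω : Set (E n)) (a b : ℝ) : Prop :=
  ∃ lam0 : ℝ, 0 < lam0 ∧ ∀ lam : ℝ, lam0 < lam → ∀ C : Set (L2O Ω), Convex ℝ C →
    CoversH Ω C → ∃ v ∈ C, ThreeSol Ω a b lam v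

variable {n : ℕ}

section

variable (hn : 3 ≤ n) {Ω : Set (E n)} (hΩ : MeasurableSet Ω) (hb : Bornology.IsBounded Ω)

include hn hΩ hb in
lemma setU (U : HH Ω) : ∫ x in Ω, ‖((U : Lp (E n) 2 (volume : Measure (E n))) :
    E n → E n) x‖ ^ 2 = ‖U‖ ^ 2 := by
  rw [norm_U]
  apply set_eq hΩ
  filter_upwards [(h01_zero hΩ (fn_h01 hn hΩ hb U)).2] with x hx hxΩ
  rw [hx hxΩ]; simp

lemma setG (hp : 2 < cexp n) (U : HH Ω) : 1 / cexp n * ∫ x in Ω,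
    |(fn hn hΩ hb U : E n → ℝ) x| ^ cexp n = Gf hn hΩ hb U := by
  unfold Gf
  congr 1
  apply set_eq hΩ
  filter_upwards [(h01_zero hΩ (fn_h01 hn hΩ hb U)).1] with x hx hxΩ
  rw [hx hxΩ, abs_zero, Real.zero_rpow (by linarith)]

lemma setV (U : HH Ω) (v : Lp ℝ 2 (volume.restrict Ω)) :
    ∫ x in Ω, ((fn hn hΩ hb U : E n → ℝ) x - v x) ^ 2 = ‖io hn hΩ hb U - v‖ ^ 2 := by
  have h1 := norm_sq_toLp (Lp.memLp (io hn hΩ hb U - v))
  rw [Lp.toLp_coeFn] at h1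
  rw [h1]
  apply integral_congr_ae
  filter_upwards [Lp.coeFn_sub (io hn hΩ hb U) v, io_ae hn hΩ hb U] with x h2 h3
  rw [h2, Pi.sub_apply, h3, Real.norm_eq_abs, sq_abs]

lemma energy_eq (hp : 2 < cexp n) (a b lam : ℝ) (v : Lp ℝ 2 (volume.restrict Ω)) (U : HH Ω) :
    energy Ω a b lam v (fn hn hΩ hb U) ((U : Lp (E n) 2 (volume : Measure (E n))) : E n → E n) =
      II (io hn hΩ hb) (Gf hn hΩ hb) a b lam v U - lam / 2 * ‖v‖ ^ 2 := by
  have := HH_complete hn hΩ hb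
  unfold energy gradSq critInt distSq
  rw [setU hn hΩ hb, setG hn hΩ hb hp, setV, II_eq]
  ring

lemma energy_congr {a b lam : ℝ} {v : Lp ℝ 2 (volume.restrict Ω)} {u w : E n → ℝ}
    {U W : E n → E n} (h1 : u =ᵐ[volume] w) (h2 : U =ᵐ[volume] W) :
    energy Ω a b lam v u U = energy Ω a b lam v w W := by
  have h1' := ae_restrict_of_ae (s := Ω) h1
  have h2' := ae_restrict_of_ae (s := Ω) h2
  have e1 : ∫ x in Ω, ‖U x‖ ^ 2 = ∫ x in Ω, ‖W x‖ ^ 2 := by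
    apply integral_congr_ae
    filter_upwards [h2'] with x hx
    rw [hx]
  have e2 : ∫ x in Ω, |u x| ^ cexp n = ∫ x in Ω, |w x| ^ cexp n := by
    apply integral_congr_ae
    filter_upwards [h1'] with x hx
    rw [hx]
  have e3 : ∫ x in Ω, (u x - v x) ^ 2 = ∫ x in Ω, (w x - v x) ^ 2 := by
    apply integral_congr_ae
    filter_upwards [h1'] with x hx
    rw [hx]
  unfold energy gradSq critInt distSq
  rw [e1, e2, e3]

lemma globalMin_of (hp : 2 < cexp n) {a b lam : ℝ} {v : Lp ℝ 2 (volume.restrict Ω)} {U : HH Ω}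
    (h : ∀ w, II (io hn hΩ hb) (Gf hn hΩ hb) a b lam v U ≤
      II (io hn hΩ hb) (Gf hn hΩ hb) a b lam v w) :
    GlobalMin Ω a b lam v (fn hn hΩ hb U)
      ((U : Lp (E n) 2 (volume : Measure (E n))) : E n → E n) := by
  refine ⟨fn_h01 hn hΩ hb U, fun w W hw => ?_⟩
  obtain ⟨V, hV1, hV2⟩ := exists_U hn hΩ hb hw
  rw [← energy_congr hV1 hV2, energy_eq hn hΩ hb hp, energy_eq hn hΩ hb hp]
  have := h V
  linarith

lemma weak_of [CompleteSpace (HH Ω)] (hp : 2 < cexp n) {a b lam : ℝ}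
    {v : Lp ℝ 2 (volume.restrict Ω)} {U : HH Ω}
    {g : HH Ω → HH Ω} (hg : ∀ U V, ⟪g U, V⟫ =
      ∫ x, |(fn hn hΩ hb U : E n → ℝ) x| ^ (cexp n - 2) *
        (fn hn hΩ hb U : E n → ℝ) x * (fn hn hΩ hb V : E n → ℝ) x)
    (h : DI (io hn hΩ hb) g a b lam v U = 0) :
    WeakSol Ω a b lam v (fn hn hΩ hb U)
      ((U : Lp (E n) 2 (volume : Measure (E n))) : E n → E n) := by
  refine ⟨fn_h01 hn hΩ hb U, fun w W hw => ?_⟩
  obtain ⟨V, hV1, hV2⟩ := exists_U hn hΩ hb hw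
  have h1 := inner_DI (ι := io hn hΩ hb) (g := g) (a := a) (b := b) (lam := lam) v U V
  rw [h, inner_zero_left, hg] at h1
  have hz := h01_zero hΩ (fn_h01 hn hΩ hb U)
  have e1 : ∫ x in Ω, ⟪((U : Lp (E n) 2 (volume : Measure (E n))) : E n → E n) x, W x⟫ =
      ⟪U, V⟫ := by
    rw [inner_U]
    rw [set_eq hΩ]
    · apply integral_congr_ae
      filter_upwards [hV2] with x hx
      rw [hx]
    · filter_upwards [hz.2] with x hx hxΩ
      rw [hx hxΩ, inner_zero_left]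
  have e2 : ∫ x in Ω, |(fn hn hΩ hb U : E n → ℝ) x| ^ (cexp n - 2) *
        (fn hn hΩ hb U : E n → ℝ) x * w x =
      ∫ x, |(fn hn hΩ hb U : E n → ℝ) x| ^ (cexp n - 2) *
        (fn hn hΩ hb U : E n → ℝ) x * (fn hn hΩ hb V : E n → ℝ) x := by
    rw [set_eq hΩ]
    · apply integral_congr_ae
      filter_upwards [hV1] with x hx
      rw [hx]
    · filter_upwards [hz.1] with x hx hxΩ
      rw [hx hxΩ, mul_zero, zero_mul]
  have e3 : ∫ x in Ω, ((fn hn hΩ hb U : E n → ℝ) x - v x) * w x =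
      ⟪io hn hΩ hb U, io hn hΩ hb V⟫ - ⟪v, io hn hΩ hb V⟫ := by
    rw [← inner_sub_left, L2.inner_def]
    apply integral_congr_ae
    filter_upwards [Lp.coeFn_sub (io hn hΩ hb U) v, io_ae hn hΩ hb U, io_ae hn hΩ hb V,
      ae_restrict_of_ae (s := Ω) hV1] with x h2 h3 h4 h5
    rw [h2, Pi.sub_apply, h3, h4, h5]
    simp [mul_comm]
  unfold gradSq gradPair critPair diffPair
  rw [e1, e2, e3, setU hn hΩ hb]
  linarith

lemma eq_of_ae {U V : HH Ω} (h : (fn hn hΩ hb U : E n → ℝ) =ᵐ[volume.restrict Ω] fn hn hΩ hb V) :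
    U = V := by
  rw [← sub_eq_zero]
  have h1 := fn_h01 hn hΩ hb (U - V)
  have h2 : (fn hn hΩ hb (U - V) : E n → ℝ) =ᵐ[volume] 0 := by
    have h3 := (ae_restrict_iff' hΩ).1 h
    filter_upwards [h3, fn_sub_ae hn hΩ hb U V, (h01_zero hΩ h1).1] with x h4 h5 h6
    by_cases hx : x ∈ Ω
    · rw [h5, h4 hx, sub_self]; rfl
    · rw [h6 hx]; rfl
  have h3 := (h01_isH1 h1).grad_zero h2
  apply Subtype.ext
  apply Lp.ext
  refine h3.trans ?_
  exact (Lp.coeFn_zero (E n) 2 (volume : Measure (E n))).symm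

theorem main (hn5 : 5 ≤ n) (hO : IsOpen Ω) (hne : Ω.Nonempty) (hb : Bornology.IsBounded Ω)
    {a b : ℝ} (ha : 0 ≤ a) (hb0 : 0 < b) : PropM Ω a b := by
  have hn : 3 ≤ n := by omega
  have hΩ := hO.measurableSet
  have hcomp := HH_complete hn hΩ hb
  have hp : 2 < cexp n := two_lt_cexp hn
  obtain ⟨g, C0, C1, κ, hg, hD⟩ := exists_Dat hn hΩ hb hn5 hO hne
  obtain ⟨lam0, h0, h1⟩ := abs_main hD ha hb0
  refine ⟨lam0, h0, fun lam hlam C hC hCd => ?_⟩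
  obtain ⟨v, hv, u1, u2, u3, h12, h31, h32, m1, m2, d1, d2, d3⟩ := h1 lam hlam C hC (by
    rintro _ ⟨U, rfl⟩
    exact hCd _ _ (fn_h01 hn hΩ hb U) _ (io_ae hn hΩ hb U))
  exact ⟨v, hv, fn hn hΩ hb u1, fn hn hΩ hb u2, fn hn hΩ hb u3, _, _, _,
    ⟨globalMin_of hn hΩ hb hp m1, weak_of hn hΩ hb hp hg d1⟩,
    ⟨globalMin_of hn hΩ hb hp m2, weak_of hn hΩ hb hp hg d2⟩, weak_of hn hΩ hb hp hg d3,
    fun h => h12 (eq_of_ae hn hΩ hb h), fun h => h31 (eq_of_ae hn hΩ hb h),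
    fun h => h32 (eq_of_ae hn hΩ hb h)⟩

end

end Pool.Agent.R217.KM
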